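import Pool.Agent.Helper5.RM.Base

/-!
# Project EA (MP_b6b996_nt): the exact asymptotics of the sup norm in the random model, definitions

Almost surely `max_x |F_N(x)| ~ (√6/π) √(N log N)`. Blueprint: `Stmt.lean` (all statements with proofs in words).
-/

set_option autoImplicit false

namespace Pool.Agent.Helper5.RS
end Pool.Agent.Helper5.RS

namespace Pool.Agent.Helper51.EA

open Finset Pool.Agent.Helper5.RM Pool.Agent.Helper5.RS

/-- plus sign analogue of `VV` -/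
noncomputable def UU (Lam Nn : Finset ℕ) (lo hi : ℕ → ℕ) (α : ℝ) (T : Finset ℕ) : ℂ :=
  ∑ l ∈ Lam, (∑ n ∈ Nn.filter (fun n => lo n ≤ l ∧ l ≤ hi n), (rf T n : ℂ) * e (l * n * α)) ^ 2

/-- the cofactors `m ≤ N / p` of `p` in the set `A`, squarefree with all primes `< p` -/
noncomputable def MG (N : ℕ) (A : Finset ℕ) (p : ℕ) : Finset ℕ :=
  (Icc 1 (N / p)).filter (fun m => m ∈ A ∧ Squarefree m ∧ ∀ q ∈ m.primeFactors, q < p)

/-- the sum over `MG N A p` -/
noncomputable def XG (N : ℕ) (A : Finset ℕ) (θ : ℝ) (p : ℕ) (T : Finset ℕ) : ℂ :=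
  ∑ m ∈ MG N A p, (rf T m : ℂ) * e (p * m * θ)

/-- the `y`-smooth numbers up to `N` -/
noncomputable def Sy (N y : ℕ) : Finset ℕ := (Icc 1 N).filter (fun m => ∀ q ∈ m.primeFactors, q ≤ y)

/-- the primes in `(y, y']` -/
noncomputable def Pb (y y' : ℕ) : Finset ℕ := (Ioc y y').filter Nat.Prime

/-- the exponents of the block boundaries -/
noncomputable def uu (c η : ℝ) (K b : ℕ) : ℝ := (1 - c) * (1 + η) ^ b / (1 + η) ^ K

/-- the block boundaries, `b = 0, ..., K`; `yb N c η K K = ⌊N ^ (1 - c)⌋` -/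
noncomputable def yb (N : ℕ) (c η : ℝ) (K b : ℕ) : ℕ := ⌊(N : ℝ) ^ uu c η K b⌋₊

/-- the main part: exactly one prime in the block of the largest prime -/
noncomputable def Mn (N : ℕ) (y : ℕ → ℕ) (K : ℕ) (θ : ℝ) (T : Finset ℕ) : ℂ :=
  ∑ b ∈ range K, ∑ p ∈ Pb (y b) (y (b + 1)), (sg T p : ℂ) * XG N (Sy N (y b)) θ p T

/-- the variance of the real part of block `b` -/
noncomputable def vb (N : ℕ) (y : ℕ → ℕ) (b : ℕ) : ℝ :=
  (∑ p ∈ Pb (y b) (y (b + 1)), ((MG N (Sy N (y b)) p).card : ℝ)) / 2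

/-- the target `√(6/π² · N log N)` -/
noncomputable def tg (N : ℕ) : ℝ := Real.sqrt (6 / Real.pi ^ 2 * (N * Real.log N))

end Pool.Agent.Helper51.EA
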