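import Pool.Agent.Helper51.EA.OneB

/-!
# Project EA, block E11, part 2c: assembly
-/

set_option autoImplicit false

namespace Pool.Agent.Helper51.EA

open Finset Pool.Agent.Helper5.RM Pool.Agent.Helper5.RS

lemma wt_ne (y : ℕ → ℕ) (a : ℕ → ℕ → ℕ → Finset ℕ → ℝ) (lam s : ℝ) (ℓ : ℕ → ℝ) (K j : ℕ) (T : Finset ℕ)
    (h : wt y a lam s ℓ K j T ≠ 0) :
    ∀ b < K, |lam * ∑ p ∈ Pb (y b) (y (b + 1)), sg T p * a b p j T - ℓ b| ≤ s := by
  induction K with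
  | zero => intro b hb; omega
  | succ K ih =>
    unfold wt at h
    split_ifs at h with h1
    · intro b hb
      rcases Nat.lt_succ_iff_lt_or_eq.1 hb with h2 | h2
      · exact ih (left_ne_zero_of_mul h) b h2
      · rw [h2]; exact h1
    · exact absurd rfl h

/-- the real parts at the grid points -/
noncomputable def aa (N : ℕ) (y : ℕ → ℕ) (b p j : ℕ) (T : Finset ℕ) : ℝ :=
  (XG N (Sy N (y b)) ((j : ℝ) / (4 * N : ℕ)) p T).re

lemma aa_inter (N : ℕ) (y : ℕ → ℕ) (b p j : ℕ) (T : Finset ℕ) : aa N y b p j (T ∩ PP (y b)) = aa N y b p j T := by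
  unfold aa XG
  congr 1
  refine Finset.sum_congr rfl fun m hm => ?_
  rw [rf_inter]
  intro q hq
  unfold MG at hm
  rw [mem_filter] at hm
  have h1 := hm.2.1
  unfold Sy at h1
  rw [mem_filter] at h1
  rw [mem_PP]
  exact ⟨Nat.prime_of_mem_primeFactors hq, h1.2 q hq⟩

lemma Mn_re (N : ℕ) (y : ℕ → ℕ) (K j : ℕ) (T : Finset ℕ) :
    (Mn N y K ((j : ℝ) / (4 * N : ℕ)) T).re = ∑ b ∈ range K, ∑ p ∈ Pb (y b) (y (b + 1)), sg T p * aa N y b p j T := by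
  unfold Mn aa
  rw [Complex.re_sum]
  refine Finset.sum_congr rfl fun b _ => ?_
  rw [Complex.re_sum]
  refine Finset.sum_congr rfl fun p _ => ?_
  rw [Complex.re_ofReal_mul]

/-- the lower bound of the main part -/
lemma one_det {N : ℕ} (hN : 2 ≤ N) (δ : ℝ) (hδ0 : 0 < δ) (hδ1 : δ ≤ 1 / 2) (y : ℕ → ℕ) (K : ℕ) (σ : ℝ) (M : ℕ → ℝ)
    (hσ : K * σ ≤ δ / 16)
    (h1 : ∀ b < K, |lm (δ / 8) N * M b - lm (δ / 8) N ^ 2 * vb N y b| ≤ σ * Real.log N)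
    (h2 : (6 / Real.pi ^ 2 - δ / 16) * N ≤ ∑ b ∈ range K, 2 * vb N y b) :
    (1 - δ / 2) * tg N ≤ ∑ b ∈ range K, M b := by
  have hN1 : 1 ≤ N := by omega
  have hN0 : (0 : ℝ) < N := by exact_mod_cast (by omega : 0 < N)
  have hL : 0 < Real.log N := Real.log_pos (by exact_mod_cast (by omega : 1 < N))
  have hlam : 0 < lm (δ / 8) N := lm_pos (by linarith) hN
  have htg := tg_pos hN
  have hpi := Real.pi_pos
  set lam := lm (δ / 8) N with hlamdef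
  set L := Real.log N with hLdef
  have e1 : lam * tg N = (1 - δ / 8) * (2 * L) := by
    rw [hlamdef]
    unfold lm
    have h3 := tg_sq hN1
    have h4 : (1 - δ / 8) * tg N * Real.pi ^ 2 / (3 * N) * tg N = (1 - δ / 8) * Real.pi ^ 2 / (3 * N) * tg N ^ 2 := by ring
    rw [h4, h3]
    field_simp
    ring
  have e3 : lam * (3 * N) = (1 - δ / 8) * tg N * Real.pi ^ 2 := by
    rw [hlamdef]
    unfold lm
    field_simp
  have h3 : lam * ∑ b ∈ range K, M b ≥ lam ^ 2 * ((6 / Real.pi ^ 2 - δ / 16) * N / 2) - K * (σ * L) := by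
    rw [Finset.mul_sum]
    have h4 : ∑ b ∈ range K, (lam ^ 2 * vb N y b - σ * L) ≤ ∑ b ∈ range K, lam * M b := by
      refine Finset.sum_le_sum fun b hb => ?_
      have := abs_le.1 (h1 b (mem_range.1 hb))
      linarith
    rw [Finset.sum_sub_distrib, Finset.sum_const, card_range, nsmul_eq_mul, ← Finset.mul_sum] at h4
    rw [← Finset.mul_sum] at h2
    have h5 : lam ^ 2 * ((6 / Real.pi ^ 2 - δ / 16) * N / 2) ≤ lam ^ 2 * ∑ b ∈ range K, vb N y b :=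
      mul_le_mul_of_nonneg_left (by linarith) (by positivity)
    linarith
  have h4 : lam ^ 2 * ((6 / Real.pi ^ 2 - δ / 16) * N / 2) =
      lam * ((1 - δ / 8) * tg N * (1 - δ / 16 * Real.pi ^ 2 / 6)) := by
    have h5 : (6 / Real.pi ^ 2 - δ / 16) = (6 - δ / 16 * Real.pi ^ 2) / Real.pi ^ 2 := by field_simp
    rw [h5]
    have h6 : lam * N = (1 - δ / 8) * tg N * Real.pi ^ 2 / 3 := by linarith
    have h7 : lam ^ 2 * ((6 - δ / 16 * Real.pi ^ 2) / Real.pi ^ 2 * N / 2) =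
        lam * (lam * N) * ((6 - δ / 16 * Real.pi ^ 2) / Real.pi ^ 2 / 2) := by ring
    rw [h7, h6]
    field_simp
    ring
  have h5 : (K : ℝ) * (σ * L) ≤ lam * (tg N * (δ / 16)) := by
    have h6 : lam * (tg N * (δ / 16)) = (1 - δ / 8) * (2 * L) * (δ / 16) := by rw [← e1]; ring
    rw [h6]
    have h7 : (K : ℝ) * (σ * L) = K * σ * L := by ring
    rw [h7]
    have h8 : (K : ℝ) * σ * L ≤ δ / 16 * L := mul_le_mul_of_nonneg_right hσ hL.le
    have h9 : (1 : ℝ) ≤ (1 - δ / 8) * 2 := by linarith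
    have h10 : 0 ≤ δ / 16 * L := by positivity
    have h11 := mul_le_mul_of_nonneg_right h9 h10
    linarith
  have h6 : (1 - δ / 2) * tg N ≤ (1 - δ / 8) * tg N * (1 - δ / 16 * Real.pi ^ 2 / 6) - tg N * (δ / 16) := by
    have h7 := pi_sq_lt
    have h8 : δ / 16 * Real.pi ^ 2 / 6 ≤ δ / 8 := by nlinarith
    have h10 : 0 ≤ δ / 16 * Real.pi ^ 2 / 6 := by positivity
    have h11 := mul_le_mul_of_nonneg_left h8 (show (0 : ℝ) ≤ 1 - δ / 8 by linarith)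
    have h12 : 0 ≤ δ * δ := by positivity
    have h9 : (1 - δ / 2) ≤ (1 - δ / 8) * (1 - δ / 16 * Real.pi ^ 2 / 6) - δ / 16 := by linarith
    have h13 := mul_le_mul_of_nonneg_right h9 htg.le
    linarith
  have h7 : lam * ((1 - δ / 2) * tg N) ≤ lam * ∑ b ∈ range K, M b := by
    rw [h4] at h3
    have h8 := mul_le_mul_of_nonneg_left h6 hlam.le
    linarith
  exact le_of_mul_le_mul_left h7 hlam

/-- the bound of one error term -/
lemma term_bound {N : ℕ} (hN : 2 ≤ N) (δ u U σ η C C1 s yv lam2 S0 ℓ Ic : ℝ) (K b : ℕ) (hb : b ≤ K) (hδ0 : 0 < δ) (hδ1 : δ ≤ 1)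
    (hu : 0 < u) (hU : u / 2 ≤ U) (hσ : (K : ℝ) * σ ≤ δ * u / 16) (hσ0 : 0 ≤ σ) (hη : 14 * η ≤ δ * u / 16) (hs : s = σ * Real.log N)
    (hy : (N : ℝ) ^ U / 2 ≤ yv) (hlam : lam2 ≤ 7 * Real.log N / N)
    (hS0 : S0 ≤ 2 * (1 - δ) ^ 2 * U * Real.log N + C) (hℓ0 : 0 ≤ ℓ) (hℓ : ℓ ≤ 7 * η * Real.log N + C1) (hI : 2 * (N : ℝ) ≤ Ic) :
    4 * (lam2 * (N / yv) * (4 * N : ℕ) * Real.exp (S0 / 2 + b * (s + 2)) * (1 + (ℓ + 1) * Real.exp (ℓ + 1))) /
      ((1 / 4 : ℝ) ^ b * Ic) ≤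
      224 * 4 ^ K * Real.exp (C / 2 + 2 * K + 2 * C1 + 2) * (1 + Real.log N) * (N : ℝ) ^ (-(δ * u / 4)) := by
  have hN0 : (0 : ℝ) < N := by exact_mod_cast (by omega : 0 < N)
  have hL : 0 < Real.log N := Real.log_pos (by exact_mod_cast (by omega : 1 < N))
  set L := Real.log N with hLdef
  have hNe : ∀ x : ℝ, (N : ℝ) ^ x = Real.exp (L * x) := fun x => Real.rpow_def_of_pos hN0 x
  rw [hNe] at hy ⊢
  have hyv : 0 < yv := lt_of_lt_of_le (by positivity) hy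
  have hIc : 0 < Ic := by linarith
  -- the factors
  have f1 : (N : ℝ) / yv ≤ 2 * N * Real.exp (-(L * U)) := by
    rw [div_le_iff₀ hyv]
    have h1 : 2 * (N : ℝ) * Real.exp (-(L * U)) * (Real.exp (L * U) / 2) ≤ 2 * N * Real.exp (-(L * U)) * yv :=
      mul_le_mul_of_nonneg_left hy (by positivity)
    have h2 : Real.exp (-(L * U)) * Real.exp (L * U) = 1 := by rw [← Real.exp_add]; simp
    have h3 : 2 * (N : ℝ) * Real.exp (-(L * U)) * (Real.exp (L * U) / 2) = N * (Real.exp (-(L * U)) * Real.exp (L * U)) := by ring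
    rw [h3, h2] at h1
    linarith
  have f2 : Real.exp (S0 / 2 + b * (s + 2)) ≤ Real.exp ((1 - δ) ^ 2 * U * L + C / 2 + δ * u / 16 * L + 2 * K) := by
    refine Real.exp_le_exp.2 ?_
    have h1 : (b : ℝ) ≤ K := by exact_mod_cast hb
    have h2 : (b : ℝ) * (s + 2) ≤ K * (s + 2) := by
      refine mul_le_mul_of_nonneg_right h1 ?_
      rw [hs]; positivity
    have h3 : (K : ℝ) * (s + 2) = K * σ * L + 2 * K := by rw [hs]; ring
    have h4 : (K : ℝ) * σ * L ≤ δ * u / 16 * L := mul_le_mul_of_nonneg_right hσ hL.le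
    linarith
  have f3 : 1 + (ℓ + 1) * Real.exp (ℓ + 1) ≤ 2 * Real.exp (δ * u / 16 * L + 2 * C1 + 2) := by
    have h1 : ℓ + 1 ≤ Real.exp (ℓ + 1) := by linarith [Real.add_one_le_exp (ℓ + 1)]
    have h2 : (1 : ℝ) ≤ Real.exp (ℓ + 1) := Real.one_le_exp (by linarith)
    have h3 : Real.exp (ℓ + 1) * Real.exp (ℓ + 1) = Real.exp (2 * (ℓ + 1)) := by rw [← Real.exp_add]; ring_nf
    have h4 : 1 + (ℓ + 1) * Real.exp (ℓ + 1) ≤ 2 * Real.exp (2 * (ℓ + 1)) := by nlinarith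
    refine h4.trans ?_
    have h5 : Real.exp (2 * (ℓ + 1)) ≤ Real.exp (δ * u / 16 * L + 2 * C1 + 2) := by
      refine Real.exp_le_exp.2 ?_
      nlinarith
    linarith
  have f4 : 1 / ((1 / 4 : ℝ) ^ b * Ic) ≤ 4 ^ K / (2 * N) := by
    rw [div_le_div_iff₀ (by positivity) (by positivity)]
    have h1 : (1 : ℝ) ≤ 4 ^ K * (1 / 4) ^ b := by
      have h2 : (4 : ℝ) ^ b ≤ 4 ^ K := pow_le_pow_right₀ (by norm_num) hb
      have h3 : (4 : ℝ) ^ b * (1 / 4) ^ b = 1 := by rw [← mul_pow]; norm_num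
      have h4 : (0 : ℝ) < (1 / 4) ^ b := by positivity
      nlinarith
    have h5 : 4 ^ K * ((1 / 4 : ℝ) ^ b * Ic) = (4 ^ K * (1 / 4) ^ b) * Ic := by ring
    rw [h5]
    nlinarith
  have hF1 : 0 ≤ (N : ℝ) / yv := by positivity
  have hF3 : 0 ≤ 1 + (ℓ + 1) * Real.exp (ℓ + 1) := by positivity
  have e1 : 4 * (lam2 * (N / yv) * (4 * N : ℕ) * Real.exp (S0 / 2 + b * (s + 2)) * (1 + (ℓ + 1) * Real.exp (ℓ + 1))) /
      ((1 / 4 : ℝ) ^ b * Ic) = 4 * (lam2 * (N / yv) * (4 * N) * Real.exp (S0 / 2 + b * (s + 2)) *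
        (1 + (ℓ + 1) * Real.exp (ℓ + 1))) * (1 / ((1 / 4 : ℝ) ^ b * Ic)) := by
    push_cast
    ring
  rw [e1]
  have e2 : 4 * (lam2 * (N / yv) * (4 * N) * Real.exp (S0 / 2 + b * (s + 2)) *
        (1 + (ℓ + 1) * Real.exp (ℓ + 1))) * (1 / ((1 / 4 : ℝ) ^ b * Ic)) ≤
      4 * ((7 * L / N) * (2 * N * Real.exp (-(L * U))) * (4 * N) *
        Real.exp ((1 - δ) ^ 2 * U * L + C / 2 + δ * u / 16 * L + 2 * K) *
        (2 * Real.exp (δ * u / 16 * L + 2 * C1 + 2))) * (4 ^ K / (2 * N)) := by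
    gcongr
  refine e2.trans ?_
  have e3 : 4 * ((7 * L / N) * (2 * N * Real.exp (-(L * U))) * (4 * N) *
        Real.exp ((1 - δ) ^ 2 * U * L + C / 2 + δ * u / 16 * L + 2 * K) *
        (2 * Real.exp (δ * u / 16 * L + 2 * C1 + 2))) * (4 ^ K / (2 * (N : ℝ))) =
      224 * 4 ^ K * L * (Real.exp (-(L * U)) * Real.exp ((1 - δ) ^ 2 * U * L + C / 2 + δ * u / 16 * L + 2 * K) *
        Real.exp (δ * u / 16 * L + 2 * C1 + 2)) := by
    field_simp
    ring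
  rw [e3, ← Real.exp_add, ← Real.exp_add]
  have e4 : Real.exp (-(L * U) + ((1 - δ) ^ 2 * U * L + C / 2 + δ * u / 16 * L + 2 * K) + (δ * u / 16 * L + 2 * C1 + 2)) ≤
      Real.exp (C / 2 + 2 * K + 2 * C1 + 2) * Real.exp (L * (-(δ * u / 4))) := by
    rw [← Real.exp_add]
    refine Real.exp_le_exp.2 ?_
    have h1 : (1 - δ) ^ 2 * U ≤ (1 - δ) * U := by
      have : 0 ≤ U := by linarith
      have h2 : (1 - δ) ^ 2 ≤ 1 - δ := by nlinarith
      exact mul_le_mul_of_nonneg_right h2 this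
    have h2 : δ * (u / 2) ≤ δ * U := mul_le_mul_of_nonneg_left hU hδ0.le
    have h3 : (1 - δ) ^ 2 * U * L ≤ (1 - δ) * U * L := mul_le_mul_of_nonneg_right h1 hL.le
    have h4 : δ * (u / 2) * L ≤ δ * U * L := mul_le_mul_of_nonneg_right h2 hL.le
    have h5 : 0 < δ * u * L := by positivity
    linarith
  have e5 : 224 * 4 ^ K * L * Real.exp (-(L * U) + ((1 - δ) ^ 2 * U * L + C / 2 + δ * u / 16 * L + 2 * K) +
      (δ * u / 16 * L + 2 * C1 + 2)) ≤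
      224 * 4 ^ K * (1 + L) * (Real.exp (C / 2 + 2 * K + 2 * C1 + 2) * Real.exp (L * (-(δ * u / 4)))) := by
    have : (0 : ℝ) < 4 ^ K := by positivity
    gcongr
    linarith
  refine e5.trans (le_of_eq ?_)
  ring

/-- the second term -/
lemma term_bound2 {N : ℕ} (hN : 2 ≤ N) (σ η C1 ℓ : ℝ) (hσ0 : 0 ≤ σ) (hσ1 : σ ≤ 1) (hη : 14 * η ≤ 1)
    (hℓ : ℓ ≤ 7 * η * Real.log N + C1) (hC1 : 0 ≤ C1) :
    64 * Real.exp (-(σ * (σ * Real.log N)) + σ ^ 2 * ℓ / 2) ≤ 64 * Real.exp C1 * (N : ℝ) ^ (-(σ ^ 2 / 2)) := by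
  have hN0 : (0 : ℝ) < N := by exact_mod_cast (by omega : 0 < N)
  have hL : 0 < Real.log N := Real.log_pos (by exact_mod_cast (by omega : 1 < N))
  rw [Real.rpow_def_of_pos hN0, mul_assoc, ← Real.exp_add]
  refine mul_le_mul_of_nonneg_left (Real.exp_le_exp.2 ?_) (by norm_num)
  have h1 : σ ^ 2 * ℓ ≤ σ ^ 2 * (7 * η * Real.log N + C1) := mul_le_mul_of_nonneg_left hℓ (by positivity)
  have h2 : σ ^ 2 * (7 * η * Real.log N) ≤ σ ^ 2 * (Real.log N / 2) :=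
    mul_le_mul_of_nonneg_left (by nlinarith) (by positivity)
  have h4 : σ ^ 2 ≤ 1 := pow_le_one₀ hσ0 hσ1
  have h3 : σ ^ 2 * C1 ≤ C1 := mul_le_of_le_one_left hC1 h4
  have h5 : 0 ≤ σ ^ 2 * Real.log N := mul_nonneg (sq_nonneg σ) hL.le
  have h6 : σ ^ 2 * (7 * η * Real.log N + C1) = σ ^ 2 * (7 * η * Real.log N) + σ ^ 2 * C1 := by ring
  rw [h6] at h1
  have h7 : -(σ * (σ * Real.log N)) = -(σ ^ 2 * Real.log N) := by ring
  rw [h7]
  linarith

end Pool.Agent.Helper51.EA
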