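import Pool.Agent.Helper51.EA.OneC

/-!
# Project EA, block E11, part 2d: `one_N`
-/

set_option autoImplicit false

namespace Pool.Agent.Helper51.EA

open Finset Pool.Agent.Helper5.RM Pool.Agent.Helper5.RS

/-- the conditions of the iteration from the conditions of block E10 -/
lemma cnd_of {N : ℕ} (hN : 2 ≤ N) (y : ℕ → ℕ) (δ β : ℝ) (hδ0 : 0 ≤ δ) (hδ1 : δ < 1) (hβ : 0 < β)
    (hs : 7 * (1 + Real.log N) * (N : ℝ) ^ (-(β / 2)) ≤ 1) (b j : ℕ) (T : Finset ℕ)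
    (h1 : ∀ p ∈ Pb (y b) (y (b + 1)), |aa N y b p j T| ≤ (N : ℝ) ^ (1 / 2 - β))
    (h2 : |∑ p ∈ Pb (y b) (y (b + 1)), aa N y b p j T ^ 2 - vb N y b| ≤ (N : ℝ) ^ (1 - β)) :
    cnd y (aa N y) (lm δ N) (fun b => lm δ N ^ 2 * vb N y b) ((N : ℝ) ^ (-(β / 2))) b j T := by
  have hN1 : 1 ≤ N := by omega
  have hN0 : (0 : ℝ) < N := by exact_mod_cast (by omega : 0 < N)
  have hN1' : (1 : ℝ) ≤ N := by exact_mod_cast hN1
  have hL : 0 < Real.log N := Real.log_pos (by exact_mod_cast (by omega : 1 < N))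
  have hlam := lm_pos hδ1 hN
  have hlam2 := lm_sq_le hδ0 hδ1.le hN1
  set lam := lm δ N
  set L := Real.log N
  have hτ : 0 < (N : ℝ) ^ (-(β / 2)) := by positivity
  have hτ1 : (N : ℝ) ^ (-(β / 2)) ≤ 1 := Real.rpow_le_one_of_one_le_of_nonpos hN1' (by linarith)
  have h7 : 7 * L * (N : ℝ) ^ (-(β / 2)) ≤ 1 := by nlinarith
  refine ⟨fun p hp => ?_, ?_⟩
  · rw [abs_mul, abs_of_pos hlam]
    refine abs_le_of_sq_le_sq' ?_ hτ.le |>.2
    have h3 : |aa N y b p j T| ^ 2 ≤ ((N : ℝ) ^ (1 / 2 - β)) ^ 2 := pow_le_pow_left₀ (abs_nonneg _) (h1 p hp) 2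
    have h4 : ((N : ℝ) ^ (1 / 2 - β)) ^ 2 = N * ((N : ℝ) ^ (-(β / 2))) ^ 4 := by
      rw [← Real.rpow_natCast, ← Real.rpow_mul hN0.le, ← Real.rpow_natCast, ← Real.rpow_mul hN0.le]
      nth_rewrite 2 [← Real.rpow_one (N : ℝ)]
      rw [← Real.rpow_add hN0]
      congr 1
      push_cast
      ring
    rw [mul_pow]
    rw [h4] at h3
    calc lam ^ 2 * |aa N y b p j T| ^ 2 ≤ (7 * L / N) * (N * ((N : ℝ) ^ (-(β / 2))) ^ 4) :=
          mul_le_mul hlam2 h3 (by positivity) (by positivity)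
      _ = (7 * L * (N : ℝ) ^ (-(β / 2))) * ((N : ℝ) ^ (-(β / 2)) * ((N : ℝ) ^ (-(β / 2))) ^ 2) := by
          field_simp
      _ ≤ 1 * (1 * ((N : ℝ) ^ (-(β / 2))) ^ 2) := by gcongr
      _ = ((N : ℝ) ^ (-(β / 2))) ^ 2 := by ring
  · have h3 : ∑ p ∈ Pb (y b) (y (b + 1)), (lam * aa N y b p j T) ^ 2 - lam ^ 2 * vb N y b =
        lam ^ 2 * (∑ p ∈ Pb (y b) (y (b + 1)), aa N y b p j T ^ 2 - vb N y b) := by
      rw [mul_sub, Finset.mul_sum]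
      congr 1
      exact Finset.sum_congr rfl fun p _ => by ring
    show |∑ p ∈ Pb (y b) (y (b + 1)), (lam * aa N y b p j T) ^ 2 - lam ^ 2 * vb N y b| ≤ _
    rw [h3, abs_mul, abs_of_nonneg (by positivity : (0 : ℝ) ≤ lam ^ 2)]
    have h4 : (N : ℝ) ^ (1 - β) = N * ((N : ℝ) ^ (-(β / 2)) * (N : ℝ) ^ (-(β / 2))) := by
      rw [← Real.rpow_add hN0]
      nth_rewrite 2 [← Real.rpow_one (N : ℝ)]
      rw [← Real.rpow_add hN0]
      congr 1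
      ring
    rw [h4] at h2
    calc lam ^ 2 * |∑ p ∈ Pb (y b) (y (b + 1)), aa N y b p j T ^ 2 - vb N y b| ≤
          (7 * L / N) * (N * ((N : ℝ) ^ (-(β / 2)) * (N : ℝ) ^ (-(β / 2)))) :=
          mul_le_mul hlam2 h2 (abs_nonneg _) (by positivity)
      _ = (7 * L * (N : ℝ) ^ (-(β / 2))) * (N : ℝ) ^ (-(β / 2)) := by field_simp
      _ ≤ 1 * (N : ℝ) ^ (-(β / 2)) := by gcongr
      _ = (N : ℝ) ^ (-(β / 2)) := by ring

theorem one_N_of (hstep : StepStmt) (horth : OrthStmt) (hnorm : NormStmt) (hpb : PbInvStmt) (hsm : SmoothStmt)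
    (hvle : VbLeStmt) (hvge : VbGeStmt) (hrest : RestStmt) (hcond : CondStmt) (δ : ℝ) (hδ : 0 < δ) :
    ∃ (c : ℝ) (N0 : ℕ), 0 < c ∧ ∀ N : ℕ, N0 ≤ N →
    pr (PP N) (fun T => ∀ j < 4 * N, ‖SN N T ((j : ℝ) / (4 * N : ℕ))‖ < (1 - δ) * tg N) ≤ (N : ℝ) ^ (-c) := by
  wlog hδ1 : δ ≤ 1 / 2 generalizing δ
  · obtain ⟨c, N0, hc, h⟩ := this (1 / 2) (by norm_num) le_rfl
    refine ⟨c, N0, hc, fun N hN => (pr_mono fun T _ hT j hj => (hT j hj).trans_le ?_).trans (h N hN)⟩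
    exact mul_le_mul_of_nonneg_right (by linarith [not_le.1 hδ1]) (tg_nonneg N)
  obtain ⟨c0, u0, hc0, hc01, hu0, hu01, hG⟩ := hvge (δ / 16) (by positivity)
  obtain ⟨c0', u0', hc0', hc01', hu0', hu01', hR⟩ := hrest (1 / 4) (δ / 4) (by norm_num) (by positivity)
  obtain ⟨c, hcdef⟩ : ∃ c, c = min c0 c0' := ⟨_, rfl⟩
  obtain ⟨u, hudef⟩ : ∃ u, u = min u0 u0' := ⟨_, rfl⟩
  have hc : 0 < c := by rw [hcdef]; exact lt_min hc0 hc0'
  have hc1 : c < 1 / 2 := by rw [hcdef]; exact lt_of_le_of_lt (min_le_left _ _) hc01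
  have hu : 0 < u := by rw [hudef]; exact lt_min hu0 hu0'
  have hu1 : u < 1 / 2 := by rw [hudef]; exact lt_of_le_of_lt (min_le_left _ _) hu01
  obtain ⟨η1, hη1, hG1⟩ := hG c u hc (by rw [hcdef]; exact min_le_left _ _) hu (by rw [hudef]; exact min_le_left _ _)
  obtain ⟨η2, hη2, hR1⟩ := hR c u hc (by rw [hcdef]; exact min_le_right _ _) hu (by rw [hudef]; exact min_le_right _ _)
  obtain ⟨η, hηdef⟩ : ∃ η, η = min (min η1 η2) (δ / 8 * u / 224) := ⟨_, rfl⟩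
  have hη : 0 < η := by rw [hηdef]; exact lt_min (lt_min hη1 hη2) (by positivity)
  have hηa : η ≤ η1 := by rw [hηdef]; exact (min_le_left _ _).trans (min_le_left _ _)
  have hηb : η ≤ η2 := by rw [hηdef]; exact (min_le_left _ _).trans (min_le_right _ _)
  have hηc : 14 * η ≤ δ / 8 * u / 16 := by
    have : η ≤ δ / 8 * u / 224 := by rw [hηdef]; exact min_le_right _ _
    linarith
  have hdu : δ / 8 * u ≤ 1 / 32 := by
    have h1 : δ / 8 * u ≤ 1 / 16 * (1 / 2) := mul_le_mul (by linarith) hu1.le hu.le (by norm_num)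
    linarith
  have hη14 : 14 * η ≤ 1 := by linarith
  obtain ⟨K, hK1, hKu, hKu'⟩ := exists_K hc1 hu hu1 hη (by linarith : η ≤ 1)
  have hK0 : (0 : ℝ) < K := by exact_mod_cast (by omega : 0 < K)
  have hK1' : (1 : ℝ) ≤ K := by exact_mod_cast hK1
  obtain ⟨σ, hσdef⟩ : ∃ σ, σ = δ / 8 * u / (16 * K) := ⟨_, rfl⟩
  have hσ0 : 0 < σ := by rw [hσdef]; positivity
  have hKσ : (K : ℝ) * σ = δ / 8 * u / 16 := by rw [hσdef]; field_simp
  have hσ1 : σ ≤ 1 := by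
    have h1 : σ ≤ K * σ := le_mul_of_one_le_left hσ0.le hK1'
    linarith
  have hKσ2 : (K : ℝ) * σ ≤ δ / 16 := by
    have h1 := mul_le_mul_of_nonneg_left (show u / 128 ≤ 1 / 16 by linarith) hδ.le
    rw [hKσ]; linarith
  obtain ⟨NG, hNG⟩ := hG1 η K hη hηa hKu hKu'
  obtain ⟨NR, hNR⟩ := hR1 η K hη hηb hKu hKu'
  obtain ⟨β, NC, hβ, hNC⟩ := hcond (1 / 4) c η K (by norm_num) hc hc1 hη
  obtain ⟨Ce, hCe, hell⟩ := ell_sum hsm hvle
  obtain ⟨C1, hC1, NE, hNE⟩ := ell_one hpb u hu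
  obtain ⟨Na, hNa⟩ := ev_small 7 (β / 2) (by positivity)
  obtain ⟨Nb, hNb⟩ := ev_small (7 * η + C1 + 2) (β / 2) (by positivity)
  obtain ⟨a, hadef⟩ : ∃ a : ℝ, a = min (1 / 32) (min (δ / 8 * u / 4) (σ ^ 2 / 2)) := ⟨_, rfl⟩
  have ha : 0 < a := by rw [hadef]; exact lt_min (by norm_num) (lt_min (by positivity) (by positivity))
  have ha1 : a ≤ 1 / 32 := by rw [hadef]; exact min_le_left _ _
  have ha2 : a ≤ δ / 8 * u / 4 := by rw [hadef]; exact (min_le_right _ _).trans (min_le_left _ _)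
  have ha3 : a ≤ σ ^ 2 / 2 := by rw [hadef]; exact (min_le_right _ _).trans (min_le_right _ _)
  obtain ⟨C2, hC2def⟩ : ∃ C2 : ℝ, C2 = 224 * 4 ^ K * Real.exp (Ce / 2 + 2 * K + 2 * C1 + 2) := ⟨_, rfl⟩
  have hC2 : 0 < C2 := by rw [hC2def]; positivity
  obtain ⟨Nc, hNc⟩ := ev_small (4 * K + 3004 + K * (C2 + 64 * Real.exp C1)) (a / 2) (by positivity)
  refine ⟨a / 2, max NG (max NR (max NC (max NE (max Na (max Nb (max Nc 576)))))), by positivity, fun N hN => ?_⟩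
  simp only [max_le_iff] at hN
  obtain ⟨n1, n2, n3, n4, n5, n6, n7, n8⟩ := hN
  have hN2 : 2 ≤ N := by omega
  have hN1 : 1 ≤ N := by omega
  have hN0 : (0 : ℝ) < N := by exact_mod_cast (by omega : 0 < N)
  have hN1' : (1 : ℝ) ≤ N := by exact_mod_cast hN1
  have hL : 0 < Real.log N := Real.log_pos (by exact_mod_cast (by omega : 1 < N))
  have hc1' : c < 1 := by linarith
  have hy := yb_mono hc1' hη K hN1
  have hyK : yb N c η K K ≤ N := yb_le_N hc hc1' hη hN1 le_rfl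
  have hδ8 : δ / 8 < 1 := by linarith
  have hδ80 : 0 ≤ δ / 8 := by positivity
  have hlam := lm_pos hδ8 hN2
  have hτ : 0 < (N : ℝ) ^ (-(β / 2)) := by positivity
  have hs1 := hNa N n5
  have hs2 := hNb N n6
  have hs3 := hNc N n7
  have hG2 := hNG N n1
  obtain ⟨y, hydef⟩ : ∃ y : ℕ → ℕ, y = yb N c η K := ⟨_, rfl⟩
  obtain ⟨ℓ, hℓdef⟩ : ∃ ℓ : ℕ → ℝ, ℓ = fun b => lm (δ / 8) N ^ 2 * vb N y b := ⟨_, rfl⟩
  have hℓ0 : ∀ b, 0 ≤ ℓ b := by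
    intro b
    rw [hℓdef]
    exact mul_nonneg (by positivity) (vb_nonneg N y b)
  have hℓ1 : ∀ b, ℓ b ≤ 7 * η * Real.log N + C1 := by
    intro b
    rw [hℓdef, hydef]
    exact hNE N n4 (δ / 8) c η K b hδ80 hδ8.le hc hc1' hη hKu
  have hℓτ : ∀ b, (N : ℝ) ^ (-(β / 2)) * (ℓ b + 1) ≤ 1 := by
    intro b
    refine le_trans ?_ hs2
    have h1 : ℓ b + 1 ≤ (7 * η + C1 + 2) * (1 + Real.log N) := by
      have h2 := hℓ1 b
      have h3 := mul_nonneg hC1.le hL.le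
      have h4 := mul_nonneg hη.le hL.le
      linarith
    calc (N : ℝ) ^ (-(β / 2)) * (ℓ b + 1) ≤ (N : ℝ) ^ (-(β / 2)) * ((7 * η + C1 + 2) * (1 + Real.log N)) :=
          mul_le_mul_of_nonneg_left h1 hτ.le
      _ = _ := by ring
  have hτ2 : (N : ℝ) ^ (-(β / 2)) ≤ 1 / 2 := by
    have h1 : 2 * (N : ℝ) ^ (-(β / 2)) ≤ (7 * η + C1 + 2) * (1 + Real.log N) * (N : ℝ) ^ (-(β / 2)) := by
      refine mul_le_mul_of_nonneg_right ?_ hτ.le
      have h3 := mul_nonneg hC1.le hL.le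
      have h4 := mul_nonneg hη.le hL.le
      linarith
    linarith
  obtain ⟨I, hIdef⟩ : ∃ I : Finset ℕ, I = IG N (1 / 4) := ⟨_, rfl⟩
  have hI1 : I ⊆ range (4 * N) := by rw [hIdef]; unfold IG; exact filter_subset _ _
  have hIc : 2 * (N : ℝ) ≤ I.card := by rw [hIdef]; exact IG_card n8
  have hIc2 : (I.card : ℝ) ≤ 4 * N := by
    have := card_le_card hI1
    rw [card_range] at this
    exact_mod_cast this
  have hI0 : 0 < I.card := by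
    have : (0 : ℝ) < I.card := by linarith
    exact_mod_cast this
  -- the events
  have hsplit : pr (PP N) (fun T => ∀ j < 4 * N, ‖SN N T ((j : ℝ) / (4 * N : ℕ))‖ < (1 - δ) * tg N) ≤
      pr (PP N) (fun T => ∃ j ∈ I, ∃ b ∈ range K, (∃ p ∈ Pb (y b) (y (b + 1)),
        (N : ℝ) ^ (1 / 2 - β) < |(XG N (Sy N (y b)) ((j : ℝ) / (4 * N : ℕ)) p T).re|) ∨
      (N : ℝ) ^ (1 - β) < |∑ p ∈ Pb (y b) (y (b + 1)), (XG N (Sy N (y b)) ((j : ℝ) / (4 * N : ℕ)) p T).re ^ 2 -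
        vb N y b|) +
      (pr (PP N) (fun T => ∃ j ∈ I, δ / 4 * tg N < ‖SN N T ((j : ℝ) / (4 * N : ℕ)) - Mn N y K ((j : ℝ) / (4 * N : ℕ)) T‖) +
      pr (PP N) (fun T => (∀ b < K, ∀ j ∈ I, cnd y (aa N y) (lm (δ / 8) N) ℓ ((N : ℝ) ^ (-(β / 2))) b j T) ∧
        ∑ j ∈ I, wt y (aa N y) (lm (δ / 8) N) (σ * Real.log N) ℓ K j T < (1 / 4 : ℝ) ^ K * I.card)) := by
    refine (pr_le_add (Q := fun T => ∃ j ∈ I, ∃ b ∈ range K, (∃ p ∈ Pb (y b) (y (b + 1)),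
        (N : ℝ) ^ (1 / 2 - β) < |(XG N (Sy N (y b)) ((j : ℝ) / (4 * N : ℕ)) p T).re|) ∨
      (N : ℝ) ^ (1 - β) < |∑ p ∈ Pb (y b) (y (b + 1)), (XG N (Sy N (y b)) ((j : ℝ) / (4 * N : ℕ)) p T).re ^ 2 -
        vb N y b|)
      (R := fun T => (∃ j ∈ I, δ / 4 * tg N < ‖SN N T ((j : ℝ) / (4 * N : ℕ)) - Mn N y K ((j : ℝ) / (4 * N : ℕ)) T‖) ∨
        ((∀ b < K, ∀ j ∈ I, cnd y (aa N y) (lm (δ / 8) N) ℓ ((N : ℝ) ^ (-(β / 2))) b j T) ∧
        ∑ j ∈ I, wt y (aa N y) (lm (δ / 8) N) (σ * Real.log N) ℓ K j T < (1 / 4 : ℝ) ^ K * I.card))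
      fun T _ hT => ?_).trans (add_le_add le_rfl (pr_or _ _ _))
    by_contra hcon
    push Not at hcon
    obtain ⟨k1, k2, k3⟩ := hcon
    have hcnd : ∀ b < K, ∀ j ∈ I, cnd y (aa N y) (lm (δ / 8) N) ℓ ((N : ℝ) ^ (-(β / 2))) b j T := by
      intro b hb j hj
      obtain ⟨k4, k5⟩ := k1 j hj b (mem_range.2 hb)
      rw [hℓdef]
      exact cnd_of hN2 y (δ / 8) β hδ80 hδ8 hβ hs1 b j T k4 k5
    have k6 := k3 hcnd
    have k7 : 0 < ∑ j ∈ I, wt y (aa N y) (lm (δ / 8) N) (σ * Real.log N) ℓ K j T := by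
      refine lt_of_lt_of_le ?_ k6
      have : (0 : ℝ) < I.card := by exact_mod_cast hI0
      positivity
    obtain ⟨j, hj, hwj⟩ := Finset.exists_ne_zero_of_sum_ne_zero k7.ne'
    have k8 := wt_ne y (aa N y) (lm (δ / 8) N) (σ * Real.log N) ℓ K j T hwj
    have k9 := one_det hN2 δ hδ hδ1 y K σ (fun b => ∑ p ∈ Pb (y b) (y (b + 1)), sg T p * aa N y b p j T) hKσ2
      (fun b hb => by have := k8 b hb; rw [hℓdef] at this; exact this) (by rw [hydef]; exact hG2)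
    rw [← Mn_re] at k9
    have k10 := k2 j hj
    have k11 := hT j (mem_range.1 (hI1 hj))
    have k12 : (Mn N y K ((j : ℝ) / (4 * N : ℕ)) T).re ≤ ‖Mn N y K ((j : ℝ) / (4 * N : ℕ)) T‖ := Complex.re_le_norm _
    have k13 : ‖Mn N y K ((j : ℝ) / (4 * N : ℕ)) T‖ ≤ ‖SN N T ((j : ℝ) / (4 * N : ℕ))‖ +
        ‖SN N T ((j : ℝ) / (4 * N : ℕ)) - Mn N y K ((j : ℝ) / (4 * N : ℕ)) T‖ := by
      have := norm_sub_norm_le (Mn N y K ((j : ℝ) / (4 * N : ℕ)) T) (SN N T ((j : ℝ) / (4 * N : ℕ)))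
      rw [norm_sub_rev] at this
      linarith
    have htg := tg_pos hN2
    have hdt := mul_pos hδ htg
    linarith
  refine hsplit.trans ?_
  -- first event
  have hA1 : pr (PP N) (fun T => ∃ j ∈ I, ∃ b ∈ range K, (∃ p ∈ Pb (y b) (y (b + 1)),
        (N : ℝ) ^ (1 / 2 - β) < |(XG N (Sy N (y b)) ((j : ℝ) / (4 * N : ℕ)) p T).re|) ∨
      (N : ℝ) ^ (1 - β) < |∑ p ∈ Pb (y b) (y (b + 1)), (XG N (Sy N (y b)) ((j : ℝ) / (4 * N : ℕ)) p T).re ^ 2 -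
        vb N y b|) ≤ 4 * N * (K * (N : ℝ) ^ (-(4 : ℝ))) := by
    refine (pr_exists _ _ _).trans ?_
    have h1 : ∀ j ∈ I, pr (PP N) (fun T => ∃ b ∈ range K, (∃ p ∈ Pb (y b) (y (b + 1)),
        (N : ℝ) ^ (1 / 2 - β) < |(XG N (Sy N (y b)) ((j : ℝ) / (4 * N : ℕ)) p T).re|) ∨
      (N : ℝ) ^ (1 - β) < |∑ p ∈ Pb (y b) (y (b + 1)), (XG N (Sy N (y b)) ((j : ℝ) / (4 * N : ℕ)) p T).re ^ 2 -
        vb N y b|) ≤ K * (N : ℝ) ^ (-(4 : ℝ)) := by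
      intro j hj
      rw [hIdef] at hj
      obtain ⟨f1, f2, f3⟩ := IG_far hN1 hj
      refine (pr_exists _ _ _).trans ?_
      refine (Finset.sum_le_sum fun b hb => ?_).trans (le_of_eq (by rw [sum_const, card_range, nsmul_eq_mul]))
      rw [hydef]
      exact hNC N n3 _ _ f1 f2 f3 b (mem_range.1 hb)
    refine (Finset.sum_le_sum h1).trans ?_
    rw [sum_const, nsmul_eq_mul]
    exact mul_le_mul_of_nonneg_right hIc2 (by positivity)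
  -- second event
  have hA2 : pr (PP N) (fun T => ∃ j ∈ I, δ / 4 * tg N <
      ‖SN N T ((j : ℝ) / (4 * N : ℕ)) - Mn N y K ((j : ℝ) / (4 * N : ℕ)) T‖) ≤
      3000 * (N : ℝ) ^ (-(1 / 32) : ℝ) + 4 * N * (N : ℝ) ^ (-(2 : ℝ)) := by
    refine (pr_exists _ _ _).trans ?_
    have h1 : ∀ j ∈ I, pr (PP N) (fun T => δ / 4 * tg N <
      ‖SN N T ((j : ℝ) / (4 * N : ℕ)) - Mn N y K ((j : ℝ) / (4 * N : ℕ)) T‖) ≤
        (DD (4 * N) ((j : ℝ) / (4 * N : ℕ)) / 4) ^ (-(9 / 4) : ℝ) + (N : ℝ) ^ (-(2 : ℝ)) := by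
      intro j hj
      rw [hIdef] at hj
      obtain ⟨f1, f2, f3⟩ := IG_far hN1 hj
      rw [hydef]
      exact hNR N n2 _ _ f1 f2 f3
    refine (Finset.sum_le_sum h1).trans ?_
    rw [sum_add_distrib, sum_const, nsmul_eq_mul]
    refine add_le_add ?_ (mul_le_mul_of_nonneg_right hIc2 (by positivity))
    rw [hIdef]
    exact IG_sum hN1
  -- third event
  have hA3 : pr (PP N) (fun T => (∀ b < K, ∀ j ∈ I, cnd y (aa N y) (lm (δ / 8) N) ℓ ((N : ℝ) ^ (-(β / 2))) b j T) ∧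
        ∑ j ∈ I, wt y (aa N y) (lm (δ / 8) N) (σ * Real.log N) ℓ K j T < (1 / 4 : ℝ) ^ K * I.card) ≤
      K * (C2 * (1 + Real.log N) * (N : ℝ) ^ (-(δ / 8 * u / 4)) + 64 * Real.exp C1 * (N : ℝ) ^ (-(σ ^ 2 / 2))) := by
    rw [← hydef] at hy hyK
    have hres : pr (PP N) (fun T => (∀ b < K, ∀ j ∈ I, cnd y (aa N y) (lm (δ / 8) N) ℓ ((N : ℝ) ^ (-(β / 2))) b j T) ∧
        ∑ j ∈ I, wt y (aa N y) (lm (δ / 8) N) (σ * Real.log N) ℓ K j T < (1 / 4 : ℝ) ^ K * I.card) =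
        pr (PP (y K)) (fun T => (∀ b < K, ∀ j ∈ I, cnd y (aa N y) (lm (δ / 8) N) ℓ ((N : ℝ) ^ (-(β / 2))) b j T) ∧
        ∑ j ∈ I, wt y (aa N y) (lm (δ / 8) N) (σ * Real.log N) ℓ K j T < (1 / 4 : ℝ) ^ K * I.card) := by
      refine Pool.Agent.Helper5.RS.pr_restrict (PP_mono hyK) _ fun T _ => ?_
      have e1 : ∀ j, wt y (aa N y) (lm (δ / 8) N) (σ * Real.log N) ℓ K j (T ∩ PP (y K)) =
          wt y (aa N y) (lm (δ / 8) N) (σ * Real.log N) ℓ K j T := fun j =>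
        wt_inter y (aa N y) (lm (δ / 8) N) (σ * Real.log N) ℓ hy (aa_inter N y) K j T (y K) le_rfl
      have e2 : ∀ b < K, ∀ j, (cnd y (aa N y) (lm (δ / 8) N) ℓ ((N : ℝ) ^ (-(β / 2))) b j (T ∩ PP (y K)) ↔
          cnd y (aa N y) (lm (δ / 8) N) ℓ ((N : ℝ) ^ (-(β / 2))) b j T) := fun b hb j =>
        cnd_inter y (aa N y) (lm (δ / 8) N) ℓ (aa_inter N y) _ b j T (y K) (hy hb.le)
      constructor
      · rintro ⟨h1, h2⟩
        refine ⟨fun b hb j hj => (e2 b hb j).2 (h1 b hb j hj), ?_⟩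
        simpa only [e1] using h2
      · rintro ⟨h1, h2⟩
        refine ⟨fun b hb j hj => (e2 b hb j).1 (h1 b hb j hj), ?_⟩
        simpa only [e1] using h2
    rw [hres]
    have hit := iterate y (aa N y) (lm (δ / 8) N) (σ * Real.log N) ℓ hstep hy (aa_inter N y) hlam (4 * N) I hI1 hI0
      (fun b => (N : ℝ) / (y b : ℝ)) (fun b => by positivity)
      (fun b T p hp p' hp' hne => by
        unfold Pb at hp hp'
        rw [mem_filter, mem_Ioc] at hp hp'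
        exact horth N (y b) (4 * N) (by omega) T p p' hp.2 hp'.2 hp.1.1 hp'.1.1 hne)
      (fun b T p hp => by
        unfold Pb at hp
        rw [mem_filter, mem_Ioc] at hp
        refine (hnorm N (4 * N) (by omega) (Sy N (y b)) T p hp.2.one_lt.le).trans ?_
        refine mul_le_mul_of_nonneg_left ?_ (Nat.cast_nonneg _)
        have h1 : ((N / p : ℕ) : ℝ) ≤ (N : ℝ) / p := Nat.cast_div_le
        refine h1.trans ?_
        have h2 : (0 : ℝ) < y b := by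
          rw [hydef]
          exact_mod_cast yb_one hc1' hη hN1 K b
        have h3 : (y b : ℝ) ≤ p := by exact_mod_cast hp.1.1.le
        exact div_le_div_of_nonneg_left hN0.le h2 h3)
      ((N : ℝ) ^ (-(β / 2))) σ hτ hτ2 hσ0 hσ1 K (fun b _ => ⟨hℓ0 b, hℓτ b⟩)
    refine hit.trans ?_
    refine (Finset.sum_le_sum fun b hb => add_le_add ?_ ?_).trans
      (le_of_eq (by rw [sum_const, card_range, nsmul_eq_mul]))
    · have hbK : b ≤ K := (mem_range.1 hb).le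
      have e1 : ∑ b' ∈ range b, (ℓ b' / 2 + σ * Real.log N + 2) = (∑ b' ∈ range b, ℓ b') / 2 + b * (σ * Real.log N + 2) := by
        have : ∀ b' ∈ range b, (ℓ b' / 2 + σ * Real.log N + 2) = ℓ b' / 2 + (σ * Real.log N + 2) := fun b' _ => by ring
        rw [Finset.sum_congr rfl this, sum_add_distrib, sum_const, card_range, nsmul_eq_mul, Finset.sum_div]
      rw [e1, hC2def]
      have hubK : u / 2 ≤ uu c η K b := hKu.trans (uu_mono hc1' hη K (Nat.zero_le b))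
      refine term_bound hN2 (δ / 8) u (uu c η K b) σ η Ce C1 (σ * Real.log N) (y b) (lm (δ / 8) N ^ 2)
        (∑ b' ∈ range b, ℓ b') (ℓ b) I.card K b hbK (by positivity) hδ8.le hu hubK hKσ.le hσ0.le hηc rfl ?_
        (lm_sq_le hδ80 hδ8.le hN1) ?_ (hℓ0 b) (hℓ1 b) hIc
      · rw [hydef]; exact yb_ge hc1' hη hN1 K b
      · rw [hℓdef, hydef]
        exact hell (δ / 8) c η K N b hδ80 hδ8.le hc hc1' hη hN2 hbK
    · exact term_bound2 hN2 σ η C1 (ℓ b) hσ0.le hσ1 hη14 (hℓ1 b) hC1.le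
  refine (add_le_add hA1 (add_le_add hA2 hA3)).trans ?_
  -- final numerics
  have hmon : ∀ x : ℝ, a ≤ x → (N : ℝ) ^ (-x) ≤ (N : ℝ) ^ (-a) := fun x hx =>
    Real.rpow_le_rpow_of_exponent_le hN1' (by linarith)
  have g1 : 4 * N * (K * (N : ℝ) ^ (-(4 : ℝ))) ≤ 4 * K * (N : ℝ) ^ (-a) := by
    have h1 : (N : ℝ) * (N : ℝ) ^ (-(4 : ℝ)) = (N : ℝ) ^ (-(3 : ℝ)) := by
      nth_rewrite 1 [← Real.rpow_one (N : ℝ)]
      rw [← Real.rpow_add hN0]; norm_num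
    have h2 := hmon 3 (by linarith)
    calc 4 * N * (K * (N : ℝ) ^ (-(4 : ℝ))) = 4 * K * (N * (N : ℝ) ^ (-(4 : ℝ))) := by ring
      _ ≤ 4 * K * (N : ℝ) ^ (-a) := by rw [h1]; gcongr
  have g2 : 4 * N * (N : ℝ) ^ (-(2 : ℝ)) ≤ 4 * (N : ℝ) ^ (-a) := by
    have h1 : (N : ℝ) * (N : ℝ) ^ (-(2 : ℝ)) = (N : ℝ) ^ (-(1 : ℝ)) := by
      nth_rewrite 1 [← Real.rpow_one (N : ℝ)]
      rw [← Real.rpow_add hN0]; norm_num
    have h2 := hmon 1 (by linarith)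
    calc 4 * N * (N : ℝ) ^ (-(2 : ℝ)) = 4 * (N * (N : ℝ) ^ (-(2 : ℝ))) := by ring
      _ ≤ 4 * (N : ℝ) ^ (-a) := by rw [h1]; gcongr
  have g3 := hmon (1 / 32) ha1
  have g4 := hmon (δ / 8 * u / 4) ha2
  have g5 := hmon (σ ^ 2 / 2) ha3
  have hNa0 : 0 < (N : ℝ) ^ (-a) := by positivity
  have g6 : (K : ℝ) * (C2 * (1 + Real.log N) * (N : ℝ) ^ (-(δ / 8 * u / 4)) + 64 * Real.exp C1 * (N : ℝ) ^ (-(σ ^ 2 / 2))) ≤
      K * (C2 * (1 + Real.log N) * (N : ℝ) ^ (-a) + 64 * Real.exp C1 * (N : ℝ) ^ (-a)) := by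
    gcongr
  have g7 : 4 * K * (N : ℝ) ^ (-a) + (3000 * (N : ℝ) ^ (-a) + 4 * (N : ℝ) ^ (-a) +
      K * (C2 * (1 + Real.log N) * (N : ℝ) ^ (-a) + 64 * Real.exp C1 * (N : ℝ) ^ (-a))) ≤
      ((4 * K + 3004 + K * (C2 + 64 * Real.exp C1)) * (1 + Real.log N)) * (N : ℝ) ^ (-a) := by
    have h1 : 4 * K * (N : ℝ) ^ (-a) + (3000 * (N : ℝ) ^ (-a) + 4 * (N : ℝ) ^ (-a) +
      K * (C2 * (1 + Real.log N) * (N : ℝ) ^ (-a) + 64 * Real.exp C1 * (N : ℝ) ^ (-a))) =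
      (4 * K + 3004 + K * (C2 * (1 + Real.log N) + 64 * Real.exp C1)) * (N : ℝ) ^ (-a) := by ring
    rw [h1]
    refine mul_le_mul_of_nonneg_right ?_ hNa0.le
    have h2 : 0 ≤ 4 * (K : ℝ) * Real.log N := by positivity
    have h3 : 0 ≤ (K : ℝ) * (64 * Real.exp C1) * Real.log N := by positivity
    linarith
  have g8 : (N : ℝ) ^ (-a) = (N : ℝ) ^ (-(a / 2)) * (N : ℝ) ^ (-(a / 2)) := by
    rw [← Real.rpow_add hN0]; congr 1; ring
  have g9 : ((4 * K + 3004 + K * (C2 + 64 * Real.exp C1)) * (1 + Real.log N)) * (N : ℝ) ^ (-a) ≤ (N : ℝ) ^ (-(a / 2)) := by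
    rw [g8, ← mul_assoc]
    have h1 : 0 ≤ (N : ℝ) ^ (-(a / 2)) := by positivity
    exact mul_le_of_le_one_left h1 hs3
  linarith

end Pool.Agent.Helper51.EA
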