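import Pool.Agent.Helper51.EA.OneR

/-!
# Project EA, block T6: `one_NR`, assembly
-/

set_option autoImplicit false

namespace Pool.Agent.Helper51.EA

open Finset Pool.Agent.Helper5.RM Pool.Agent.Helper5.RS

theorem one_NR_of (hstep : StepStmt) (horth : OrthWStmt) (hnorm : NormWStmt) (hpb : PbInvStmt) (hsm : SmoothStmt)
    (hvle : VbLeStmt) (hvge : VbGeStmt) (hrest : RestStmt) (hcond : CondWStmt)
    (δ r : ℝ) (hδ : 0 < δ) (hr0 : 0 < r) (hr1 : r ≤ 1) (ω : ℂ) (hω : ‖ω‖ = 1) (a b : ℝ) (ha : 0 ≤ a) (hab : a < b)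
    (hb : b ≤ 1) : ∃ (c : ℝ) (N0 : ℕ), 0 < c ∧ ∀ N : ℕ, N0 ≤ N →
    pr (PP N) (fun T => (cnt (4 * N) (fun x => a < x ∧ x < b ∧ r * (1 - δ) * tg N ≤ (ω * SN N T x).re) : ℝ) <
      (N : ℝ) ^ (1 - r ^ 2 - δ)) ≤ (N : ℝ) ^ (-c) := by
  classical
  wlog hδ1 : δ ≤ 1 / 2 generalizing δ
  · obtain ⟨c, N0, hc, h⟩ := this (1 / 2) (by norm_num) le_rfl
    refine ⟨c, max N0 1, hc, fun N hN => (pr_mono fun T _ hT => ?_).trans (h N ((le_max_left _ _).trans hN))⟩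
    have hN1 : (1 : ℝ) ≤ N := by exact_mod_cast (le_max_right _ _).trans hN
    have h1 : cnt (4 * N) (fun x => a < x ∧ x < b ∧ r * (1 - 1 / 2) * tg N ≤ (ω * SN N T x).re) ≤
        cnt (4 * N) (fun x => a < x ∧ x < b ∧ r * (1 - δ) * tg N ≤ (ω * SN N T x).re) := by
      refine cnt_mono fun j _ hP => ⟨hP.1, hP.2.1, le_trans ?_ hP.2.2⟩
      have h2 : r * (1 - δ) ≤ r * (1 - 1 / 2) := mul_le_mul_of_nonneg_left (by linarith [not_le.1 hδ1]) hr0.le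
      exact mul_le_mul_of_nonneg_right h2 (tg_nonneg N)
    have h3 : (N : ℝ) ^ (1 - r ^ 2 - δ) ≤ (N : ℝ) ^ (1 - r ^ 2 - 1 / 2) :=
      Real.rpow_le_rpow_of_exponent_le hN1 (by linarith [not_le.1 hδ1])
    have h4 : (cnt (4 * N) (fun x => a < x ∧ x < b ∧ r * (1 - 1 / 2) * tg N ≤ (ω * SN N T x).re) : ℝ) ≤
        cnt (4 * N) (fun x => a < x ∧ x < b ∧ r * (1 - δ) * tg N ≤ (ω * SN N T x).re) := by exact_mod_cast h1
    linarith
  have hw0 : 0 < b - a := by linarith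
  have hw1 : b - a ≤ 1 := by linarith
  have hr2 : r ^ 2 ≤ 1 := pow_le_one₀ hr0.le hr1
  have hr20 : 0 < r ^ 2 := by positivity
  obtain ⟨c0, u0, hc0, hc01, hu0, hu01, hG⟩ := hvge (δ / 16) (by positivity)
  obtain ⟨c0', u0', hc0', hc01', hu0', hu01', hR⟩ := hrest (1 / 4) (r * (δ / 4)) (by norm_num) (by positivity)
  obtain ⟨c, hcdef⟩ : ∃ c, c = min c0 c0' := ⟨_, rfl⟩
  obtain ⟨u, hudef⟩ : ∃ u, u = min u0 u0' := ⟨_, rfl⟩
  have hc : 0 < c := by rw [hcdef]; exact lt_min hc0 hc0'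
  have hc1 : c < 1 / 2 := by rw [hcdef]; exact lt_of_le_of_lt (min_le_left _ _) hc01
  have hu : 0 < u := by rw [hudef]; exact lt_min hu0 hu0'
  have hu1 : u < 1 / 2 := by rw [hudef]; exact lt_of_le_of_lt (min_le_left _ _) hu01
  obtain ⟨η1, hη1, hG1⟩ := hG c u hc (by rw [hcdef]; exact min_le_left _ _) hu (by rw [hudef]; exact min_le_left _ _)
  obtain ⟨η2, hη2, hR1⟩ := hR c u hc (by rw [hcdef]; exact min_le_right _ _) hu (by rw [hudef]; exact min_le_right _ _)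
  obtain ⟨η, hηdef⟩ : ∃ η, η = min (min η1 η2) (δ / 8 * u / 224) := ⟨_, rfl⟩
  have hη : 0 < η := by rw [hηdef]; exact lt_min (lt_min hη1 hη2) (by positivity)
  have hηa : η ≤ η1 := by rw [hηdef]; exact (min_le_left _ _).trans (min_le_left _ _)
  have hηb : η ≤ η2 := by rw [hηdef]; exact (min_le_left _ _).trans (min_le_right _ _)
  have hηc : 14 * η ≤ δ / 8 * u / 16 := by
    have : η ≤ δ / 8 * u / 224 := by rw [hηdef]; exact min_le_right _ _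
    linarith
  have hdu : δ / 8 * u ≤ 1 / 32 := by
    have h1 : δ / 8 * u ≤ 1 / 16 * (1 / 2) := mul_le_mul (by linarith) hu1.le hu.le (by norm_num)
    linarith
  have hη14 : 14 * η ≤ 1 := by linarith
  obtain ⟨K, hK1, hKu, hKu'⟩ := exists_K hc1 hu hu1 hη (by linarith : η ≤ 1)
  have hK0 : (0 : ℝ) < K := by exact_mod_cast (by omega : 0 < K)
  have hK1' : (1 : ℝ) ≤ K := by exact_mod_cast hK1
  obtain ⟨σ, hσdef⟩ : ∃ σ, σ = r ^ 2 * (δ / 8 * u / (16 * K)) := ⟨_, rfl⟩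
  have hσ0 : 0 < σ := by rw [hσdef]; positivity
  have hKσ' : (K : ℝ) * σ = r ^ 2 * (δ / 8 * u / 16) := by rw [hσdef]; field_simp
  have hKσ : (K : ℝ) * σ ≤ δ / 8 * u / 16 := by
    rw [hKσ']
    exact mul_le_of_le_one_left (by positivity) hr2
  have hσ1 : σ ≤ 1 := by
    have h1 : σ ≤ K * σ := le_mul_of_one_le_left hσ0.le hK1'
    linarith
  have hKσ2 : (K : ℝ) * (σ / r ^ 2) ≤ δ / 16 := by
    have h1 := mul_le_mul_of_nonneg_left (show u / 128 ≤ 1 / 16 by linarith) hδ.le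
    have h2 : (K : ℝ) * (σ / r ^ 2) = δ / 8 * u / 16 := by
      rw [hσdef]; field_simp
    rw [h2]; linarith
  have hKσ3 : (K : ℝ) * σ ≤ δ / 4 := by
    have h1 := mul_le_mul_of_nonneg_left (show u / 128 ≤ 1 / 4 by linarith) hδ.le
    linarith
  obtain ⟨NG, hNG⟩ := hG1 η K hη hηa hKu hKu'
  obtain ⟨NR, hNR⟩ := hR1 η K hη hηb hKu hKu'
  obtain ⟨β, NC, hβ, hNC⟩ := hcond (1 / 4) c η K (by norm_num) hc hc1 hη
  obtain ⟨Ce, hCe, hell⟩ := ell_sum hsm hvle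
  obtain ⟨C1, hC1, NE, hNE⟩ := ell_one hpb u hu
  obtain ⟨Na, hNa⟩ := ev_small 7 (β / 2) (by positivity)
  obtain ⟨Nb, hNb⟩ := ev_small (7 * η + C1 + 2) (β / 2) (by positivity)
  obtain ⟨e1, he1def⟩ : ∃ e1 : ℝ, e1 = min (1 / 32) (min (δ / 8 * u / 4) (σ ^ 2 / 2)) := ⟨_, rfl⟩
  have he1 : 0 < e1 := by rw [he1def]; exact lt_min (by norm_num) (lt_min (by positivity) (by positivity))
  have he11 : e1 ≤ 1 / 32 := by rw [he1def]; exact min_le_left _ _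
  have he12 : e1 ≤ δ / 8 * u / 4 := by rw [he1def]; exact (min_le_right _ _).trans (min_le_left _ _)
  have he13 : e1 ≤ σ ^ 2 / 2 := by rw [he1def]; exact (min_le_right _ _).trans (min_le_right _ _)
  obtain ⟨C2, hC2def⟩ : ∃ C2 : ℝ, C2 = 224 * 4 ^ K * Real.exp (Ce / 2 + 2 * K + 2 * C1 + 2) := ⟨_, rfl⟩
  have hC2 : 0 < C2 := by rw [hC2def]; positivity
  obtain ⟨Nc, hNc⟩ := ev_small (4 * K + 3004 + K * (C2 / (b - a) + 64 * Real.exp C1)) (e1 / 2) (by positivity)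
  obtain ⟨Nd, hNd⟩ := ev_small (25 / (b - a)) (1 / 2) (by norm_num)
  obtain ⟨C3, hC3def⟩ : ∃ C3 : ℝ, C3 = 4 ^ K * Real.exp (Ce / 2 + 2 * K) / (2 * (b - a)) := ⟨_, rfl⟩
  have hC3 : 0 < C3 := by rw [hC3def]; positivity
  obtain ⟨Ne, hNe⟩ := ev_small C3 (δ / 2) (by positivity)
  refine ⟨e1 / 2, max NG (max NR (max NC (max NE (max Na (max Nb (max Nc (max Nd (max Ne 576)))))))), by positivity,
    fun N hN => ?_⟩
  simp only [max_le_iff] at hN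
  obtain ⟨n1, n2, n3, n4, n5, n6, n7, n8, n9, n10⟩ := hN
  have hN2 : 2 ≤ N := by omega
  have hN1 : 1 ≤ N := by omega
  have hN0 : (0 : ℝ) < N := by exact_mod_cast (by omega : 0 < N)
  have hN1' : (1 : ℝ) ≤ N := by exact_mod_cast hN1
  have hL : 0 < Real.log N := Real.log_pos (by exact_mod_cast (by omega : 1 < N))
  have hc1' : c < 1 := by linarith
  have hy := yb_mono hc1' hη K hN1
  have hyK : yb N c η K K ≤ N := yb_le_N hc hc1' hη hN1 le_rfl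
  have hδ8 : δ / 8 < 1 := by linarith
  have hδ80 : 0 ≤ δ / 8 := by positivity
  have hlm := lm_pos hδ8 hN2
  obtain ⟨lam, hlamdef⟩ : ∃ lam, lam = r * lm (δ / 8) N := ⟨_, rfl⟩
  have hlam : 0 < lam := by rw [hlamdef]; exact mul_pos hr0 hlm
  have hlam2 : lam ^ 2 = r ^ 2 * lm (δ / 8) N ^ 2 := by rw [hlamdef]; ring
  have hlam7 : lam ^ 2 ≤ 7 * Real.log N / N := by
    rw [hlam2]
    exact (mul_le_of_le_one_left (by positivity) hr2).trans (lm_sq_le hδ80 hδ8.le hN1)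
  have hτ : 0 < (N : ℝ) ^ (-(β / 2)) := by positivity
  have hs1 := hNa N n5
  have hs2 := hNb N n6
  have hs3 := hNc N n7
  have hs4 := hNd N n8
  have hs5 := hNe N n9
  have hG2 := hNG N n1
  obtain ⟨y, hydef⟩ : ∃ y : ℕ → ℕ, y = yb N c η K := ⟨_, rfl⟩
  obtain ⟨ℓ, hℓdef⟩ : ∃ ℓ : ℕ → ℝ, ℓ = fun b => lam ^ 2 * vb N y b := ⟨_, rfl⟩
  have hℓ0 : ∀ b, 0 ≤ ℓ b := by
    intro b
    rw [hℓdef]
    exact mul_nonneg (by positivity) (vb_nonneg N y b)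
  have hℓ1 : ∀ b, ℓ b ≤ 7 * η * Real.log N + C1 := by
    intro b
    have h1 := hNE N n4 (δ / 8) c η K b hδ80 hδ8.le hc hc1' hη hKu
    have h2 : ℓ b ≤ lm (δ / 8) N ^ 2 * vb N (yb N c η K) b := by
      rw [hℓdef, hydef]
      show lam ^ 2 * vb N (yb N c η K) b ≤ _
      rw [hlam2, mul_assoc]
      exact mul_le_of_le_one_left (mul_nonneg (by positivity) (vb_nonneg N _ b)) hr2
    exact h2.trans h1
  have hℓτ : ∀ b, (N : ℝ) ^ (-(β / 2)) * (ℓ b + 1) ≤ 1 := by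
    intro b
    refine le_trans ?_ hs2
    have h1 : ℓ b + 1 ≤ (7 * η + C1 + 2) * (1 + Real.log N) := by
      have h2 := hℓ1 b
      have h3 := mul_nonneg hC1.le hL.le
      have h4 := mul_nonneg hη.le hL.le
      linarith
    calc (N : ℝ) ^ (-(β / 2)) * (ℓ b + 1) ≤ (N : ℝ) ^ (-(β / 2)) * ((7 * η + C1 + 2) * (1 + Real.log N)) :=
          mul_le_mul_of_nonneg_left h1 hτ.le
      _ = _ := by ring
  have hτ2 : (N : ℝ) ^ (-(β / 2)) ≤ 1 / 2 := by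
    have h1 : 2 * (N : ℝ) ^ (-(β / 2)) ≤ (7 * η + C1 + 2) * (1 + Real.log N) * (N : ℝ) ^ (-(β / 2)) := by
      refine mul_le_mul_of_nonneg_right ?_ hτ.le
      have h3 := mul_nonneg hC1.le hL.le
      have h4 := mul_nonneg hη.le hL.le
      linarith
    linarith
  have hSell : ∀ b ≤ K, ∑ b' ∈ range b, ℓ b' ≤ r ^ 2 * (2 * (1 - δ / 8) ^ 2 * uu c η K b * Real.log N + Ce) := by
    intro b hbK
    have h1 := hell (δ / 8) c η K N b hδ80 hδ8.le hc hc1' hη hN2 hbK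
    have h2 : ∑ b' ∈ range b, ℓ b' = r ^ 2 * ∑ b' ∈ range b, lm (δ / 8) N ^ 2 * vb N (yb N c η K) b' := by
      rw [hℓdef, hydef, Finset.mul_sum]
      refine Finset.sum_congr rfl fun b' _ => ?_
      show lam ^ 2 * vb N (yb N c η K) b' = _
      rw [hlam2]; ring
    rw [h2]
    exact mul_le_mul_of_nonneg_left h1 hr20.le
  obtain ⟨I, hIdef⟩ : ∃ I : Finset ℕ, I = IW N a b := ⟨_, rfl⟩
  have hIG : I ⊆ IG N (1 / 4) := by rw [hIdef]; unfold IW; exact filter_subset _ _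
  have hIab : ∀ j ∈ I, a < (j : ℝ) / (4 * N : ℕ) ∧ (j : ℝ) / (4 * N : ℕ) < b := by
    intro j hj
    rw [hIdef] at hj
    unfold IW at hj
    exact (mem_filter.1 hj).2
  have hI1 : I ⊆ range (4 * N) := hIG.trans (by unfold IG; exact filter_subset _ _)
  have hIc : 2 * (N : ℝ) * (b - a) ≤ I.card := by
    rw [hIdef]
    refine IW_card hN1 a b ha hb ?_
    have h1 : (N : ℝ) ^ (-(1 / 2) : ℝ) = ((N : ℝ) ^ (1 / 2 : ℝ))⁻¹ := Real.rpow_neg hN0.le _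
    have h2 : 0 < (N : ℝ) ^ (1 / 2 : ℝ) := by positivity
    have h3 : (N : ℝ) ^ (1 / 2 : ℝ) * (N : ℝ) ^ (1 / 2 : ℝ) = N := by
      rw [← Real.rpow_add hN0]; norm_num
    rw [h1, ← div_eq_mul_inv, div_le_one h2] at hs4
    have h4 : 25 / (b - a) ≤ (N : ℝ) ^ (1 / 2 : ℝ) := by
      refine le_trans ?_ hs4
      exact le_mul_of_one_le_right (by positivity) (by linarith)
    rw [div_le_iff₀ hw0] at h4
    have h5 := mul_le_mul_of_nonneg_left h4 h2.le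
    rw [← mul_assoc, h3] at h5
    linarith
  have hIc2 : (I.card : ℝ) ≤ 4 * N := by
    have := card_le_card hI1
    rw [card_range] at this
    exact_mod_cast this
  have hIcpos : (0 : ℝ) < I.card := lt_of_lt_of_le (by positivity) hIc
  have hI0 : 0 < I.card := by exact_mod_cast hIcpos
  -- the events
  have hsplit : pr (PP N) (fun T => (cnt (4 * N) (fun x => a < x ∧ x < b ∧ r * (1 - δ) * tg N ≤ (ω * SN N T x).re) : ℝ) <
      (N : ℝ) ^ (1 - r ^ 2 - δ)) ≤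
      pr (PP N) (fun T => ∃ j ∈ I, ∃ b ∈ range K, (∃ p ∈ Pb (y b) (y (b + 1)),
        (N : ℝ) ^ (1 / 2 - β) < |(ω * XG N (Sy N (y b)) ((j : ℝ) / (4 * N : ℕ)) p T).re|) ∨
      (N : ℝ) ^ (1 - β) < |∑ p ∈ Pb (y b) (y (b + 1)), (ω * XG N (Sy N (y b)) ((j : ℝ) / (4 * N : ℕ)) p T).re ^ 2 -
        vb N y b|) +
      (pr (PP N) (fun T => ∃ j ∈ I, r * (δ / 4) * tg N <
        ‖SN N T ((j : ℝ) / (4 * N : ℕ)) - Mn N y K ((j : ℝ) / (4 * N : ℕ)) T‖) +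
      pr (PP N) (fun T => (∀ b < K, ∀ j ∈ I, cnd y (aw N ω y) lam ℓ ((N : ℝ) ^ (-(β / 2))) b j T) ∧
        ∑ j ∈ I, wt y (aw N ω y) lam (σ * Real.log N) ℓ K j T < (1 / 4 : ℝ) ^ K * I.card)) := by
    refine (pr_le_add (Q := fun T => ∃ j ∈ I, ∃ b ∈ range K, (∃ p ∈ Pb (y b) (y (b + 1)),
        (N : ℝ) ^ (1 / 2 - β) < |(ω * XG N (Sy N (y b)) ((j : ℝ) / (4 * N : ℕ)) p T).re|) ∨
      (N : ℝ) ^ (1 - β) < |∑ p ∈ Pb (y b) (y (b + 1)), (ω * XG N (Sy N (y b)) ((j : ℝ) / (4 * N : ℕ)) p T).re ^ 2 -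
        vb N y b|)
      (R := fun T => (∃ j ∈ I, r * (δ / 4) * tg N <
        ‖SN N T ((j : ℝ) / (4 * N : ℕ)) - Mn N y K ((j : ℝ) / (4 * N : ℕ)) T‖) ∨
        ((∀ b < K, ∀ j ∈ I, cnd y (aw N ω y) lam ℓ ((N : ℝ) ^ (-(β / 2))) b j T) ∧
        ∑ j ∈ I, wt y (aw N ω y) lam (σ * Real.log N) ℓ K j T < (1 / 4 : ℝ) ^ K * I.card))
      fun T _ hT => ?_).trans (add_le_add le_rfl (pr_or _ _ _))
    by_contra hcon
    push Not at hcon
    obtain ⟨k1, k2, k3⟩ := hcon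
    have hcnd : ∀ b < K, ∀ j ∈ I, cnd y (aw N ω y) lam ℓ ((N : ℝ) ^ (-(β / 2))) b j T := by
      intro b hb j hj
      obtain ⟨k4, k5⟩ := k1 j hj b (mem_range.2 hb)
      rw [hℓdef, hlamdef]
      exact cnd_ofW hN2 ω y (δ / 8) r β hδ80 hδ8 hr0 hr1 hβ hs1 b j T k4 k5
    have k6 := k3 hcnd
    -- the points with positive weight
    obtain ⟨I', hI'def⟩ : ∃ I' : Finset ℕ, I' = I.filter (fun j => wt y (aw N ω y) lam (σ * Real.log N) ℓ K j T ≠ 0) :=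
      ⟨_, rfl⟩
    have hwle : ∀ j ∈ I, wt y (aw N ω y) lam (σ * Real.log N) ℓ K j T ≤
        Real.exp (∑ b' ∈ range K, (ℓ b' / 2 + σ * Real.log N + 2)) := fun j hj =>
      (wt_le y (aw N ω y) lam (σ * Real.log N) ℓ ((N : ℝ) ^ (-(β / 2))) hτ hτ2 K (fun b' _ => ⟨hℓ0 b', hℓτ b'⟩) j T
        (fun b' hb' => hcnd b' hb' j hj)).2
    have k7 : ∑ j ∈ I, wt y (aw N ω y) lam (σ * Real.log N) ℓ K j T ≤
        I'.card * Real.exp (∑ b' ∈ range K, (ℓ b' / 2 + σ * Real.log N + 2)) := by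
      have h1 : ∑ j ∈ I, wt y (aw N ω y) lam (σ * Real.log N) ℓ K j T =
          ∑ j ∈ I', wt y (aw N ω y) lam (σ * Real.log N) ℓ K j T := by
        rw [hI'def, Finset.sum_filter_ne_zero]
      rw [h1, ← nsmul_eq_mul]
      refine Finset.sum_le_card_nsmul _ _ _ fun j hj => hwle j ?_
      rw [hI'def] at hj
      exact (mem_filter.1 hj).1
    have k8 : I'.card ≤ cnt (4 * N) (fun x => a < x ∧ x < b ∧ r * (1 - δ) * tg N ≤ (ω * SN N T x).re) := by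
      refine card_le_cnt fun j hj => ?_
      rw [hI'def] at hj
      obtain ⟨hj1, hj2⟩ := mem_filter.1 hj
      refine ⟨mem_range.1 (hI1 hj1), (hIab j hj1).1, (hIab j hj1).2, ?_⟩
      have m1 := wt_ne y (aw N ω y) lam (σ * Real.log N) ℓ K j T hj2
      have m2 := one_det hN2 δ hδ hδ1 y K (σ / r ^ 2)
        (fun b => (∑ p ∈ Pb (y b) (y (b + 1)), sg T p * aw N ω y b p j T) / r) hKσ2
        (fun b hb => by
          have m3 := m1 b hb
          rw [hℓdef] at m3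
          have m4 : lm (δ / 8) N * ((∑ p ∈ Pb (y b) (y (b + 1)), sg T p * aw N ω y b p j T) / r) -
              lm (δ / 8) N ^ 2 * vb N y b =
              (lam * (∑ p ∈ Pb (y b) (y (b + 1)), sg T p * aw N ω y b p j T) - lam ^ 2 * vb N y b) / r ^ 2 := by
            rw [hlamdef]; field_simp
          rw [m4, abs_div, abs_of_pos hr20, div_mul_eq_mul_div]
          exact div_le_div_of_nonneg_right m3 hr20.le)
        (by rw [hydef]; exact hG2)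
      rw [← Finset.sum_div, le_div_iff₀ hr0, ← Mn_reW] at m2
      have m5 := k2 j hj1
      have m6 : |(ω * SN N T ((j : ℝ) / (4 * N : ℕ))).re - (ω * Mn N y K ((j : ℝ) / (4 * N : ℕ)) T).re| ≤
          ‖SN N T ((j : ℝ) / (4 * N : ℕ)) - Mn N y K ((j : ℝ) / (4 * N : ℕ)) T‖ := by
        rw [← Complex.sub_re, ← mul_sub]
        refine (Complex.abs_re_le_norm _).trans ?_
        rw [norm_mul, hω, one_mul]
      have m7 := (abs_le.1 m6).1
      have htg := tg_pos hN2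
      have hrt : 0 < r * (δ * tg N) := by positivity
      linarith
    -- the numerics
    have k9 : Real.exp (∑ b' ∈ range K, (ℓ b' / 2 + σ * Real.log N + 2)) ≤
        Real.exp (Ce / 2 + 2 * K) * (N : ℝ) ^ (r ^ 2 + δ / 4) := by
      rw [Real.rpow_def_of_pos hN0, ← Real.exp_add]
      refine Real.exp_le_exp.2 ?_
      have h1 := hSell K le_rfl
      rw [uu_K hη] at h1
      have h2 : ∑ b' ∈ range K, (ℓ b' / 2 + σ * Real.log N + 2) = (∑ b' ∈ range K, ℓ b') / 2 + (K * σ * Real.log N + 2 * K) := by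
        rw [Finset.sum_add_distrib, Finset.sum_add_distrib, Finset.sum_const, Finset.sum_const, card_range, nsmul_eq_mul,
          nsmul_eq_mul, Finset.sum_div]
        ring
      rw [h2]
      have h3 : (1 - δ / 8) ^ 2 * (1 - c) ≤ 1 := by
        have h4 : (1 - δ / 8) ^ 2 ≤ 1 := pow_le_one₀ (by linarith) (by linarith)
        exact mul_le_one₀ h4 (by linarith) (by linarith)
      have h4 : r ^ 2 * (2 * (1 - δ / 8) ^ 2 * (1 - c) * Real.log N + Ce) ≤ 2 * r ^ 2 * Real.log N + Ce := by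
        have h5 : r ^ 2 * Ce ≤ Ce := mul_le_of_le_one_left hCe.le hr2
        have h6 : (1 - δ / 8) ^ 2 * (1 - c) * (r ^ 2 * Real.log N) ≤ r ^ 2 * Real.log N :=
          mul_le_of_le_one_left (by positivity) h3
        linarith
      have h7 : (K : ℝ) * σ * Real.log N ≤ δ / 4 * Real.log N := mul_le_mul_of_nonneg_right hKσ3 hL.le
      linarith
    have k10 : (1 / 4 : ℝ) ^ K * I.card ≤ I'.card * (Real.exp (Ce / 2 + 2 * K) * (N : ℝ) ^ (r ^ 2 + δ / 4)) :=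
      (k6.trans k7).trans (mul_le_mul_of_nonneg_left k9 (Nat.cast_nonneg _))
    have k11 : (1 / 4 : ℝ) ^ K * (2 * (N : ℝ) * (b - a)) ≤
        I'.card * (Real.exp (Ce / 2 + 2 * K) * (N : ℝ) ^ (r ^ 2 + δ / 4)) :=
      (mul_le_mul_of_nonneg_left hIc (by positivity)).trans k10
    have k12 : (I'.card : ℝ) ≤ cnt (4 * N) (fun x => a < x ∧ x < b ∧ r * (1 - δ) * tg N ≤ (ω * SN N T x).re) := by
      exact_mod_cast k8
    have k13 : (I'.card : ℝ) < (N : ℝ) ^ (1 - r ^ 2 - δ) := lt_of_le_of_lt k12 hT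
    have k14 : (N : ℝ) ^ (1 - r ^ 2 - δ) * (Real.exp (Ce / 2 + 2 * K) * (N : ℝ) ^ (r ^ 2 + δ / 4)) ≤
        (1 / 4 : ℝ) ^ K * (2 * (N : ℝ) * (b - a)) := by
      have h1 : (N : ℝ) ^ (1 - r ^ 2 - δ) * (Real.exp (Ce / 2 + 2 * K) * (N : ℝ) ^ (r ^ 2 + δ / 4)) =
          Real.exp (Ce / 2 + 2 * K) * (N * (N : ℝ) ^ (-(3 * δ / 4))) := by
        have h2 : (N : ℝ) ^ (1 - r ^ 2 - δ) * (N : ℝ) ^ (r ^ 2 + δ / 4) = N * (N : ℝ) ^ (-(3 * δ / 4)) := by
          nth_rewrite 3 [← Real.rpow_one (N : ℝ)]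
          rw [← Real.rpow_add hN0, ← Real.rpow_add hN0]
          congr 1
          ring
        calc (N : ℝ) ^ (1 - r ^ 2 - δ) * (Real.exp (Ce / 2 + 2 * K) * (N : ℝ) ^ (r ^ 2 + δ / 4)) =
            Real.exp (Ce / 2 + 2 * K) * ((N : ℝ) ^ (1 - r ^ 2 - δ) * (N : ℝ) ^ (r ^ 2 + δ / 4)) := by ring
          _ = _ := by rw [h2]
      rw [h1]
      have h3 : (N : ℝ) ^ (-(3 * δ / 4)) ≤ (N : ℝ) ^ (-(δ / 2)) := Real.rpow_le_rpow_of_exponent_le hN1' (by linarith)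
      have h4 : C3 * (N : ℝ) ^ (-(3 * δ / 4)) ≤ 1 := by
        refine le_trans ?_ hs5
        have h5 : C3 * 1 ≤ C3 * (1 + Real.log N) := mul_le_mul_of_nonneg_left (by linarith) hC3.le
        exact mul_le_mul (by linarith) h3 (by positivity) (by positivity)
      have h5 : Real.exp (Ce / 2 + 2 * K) = C3 * ((1 / 4 : ℝ) ^ K * (2 * (b - a))) := by
        rw [hC3def]
        have h6 : (4 : ℝ) ^ K * (1 / 4) ^ K = 1 := by rw [← mul_pow]; norm_num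
        have h7 : 4 ^ K * Real.exp (Ce / 2 + 2 * K) / (2 * (b - a)) * ((1 / 4 : ℝ) ^ K * (2 * (b - a))) =
            (4 ^ K * (1 / 4) ^ K) * Real.exp (Ce / 2 + 2 * K) := by
          field_simp
        rw [h7, h6, one_mul]
      rw [h5]
      calc C3 * ((1 / 4 : ℝ) ^ K * (2 * (b - a))) * (N * (N : ℝ) ^ (-(3 * δ / 4))) =
            (C3 * (N : ℝ) ^ (-(3 * δ / 4))) * ((1 / 4 : ℝ) ^ K * (2 * N * (b - a))) := by ring
        _ ≤ 1 * ((1 / 4 : ℝ) ^ K * (2 * N * (b - a))) := mul_le_mul_of_nonneg_right h4 (by positivity)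
        _ = _ := one_mul _
    have k15 : 0 < Real.exp (Ce / 2 + 2 * K) * (N : ℝ) ^ (r ^ 2 + δ / 4) := by positivity
    have k16 := mul_lt_mul_of_pos_right k13 k15
    linarith
  refine hsplit.trans ?_
  -- first event
  have hA1 : pr (PP N) (fun T => ∃ j ∈ I, ∃ b ∈ range K, (∃ p ∈ Pb (y b) (y (b + 1)),
        (N : ℝ) ^ (1 / 2 - β) < |(ω * XG N (Sy N (y b)) ((j : ℝ) / (4 * N : ℕ)) p T).re|) ∨
      (N : ℝ) ^ (1 - β) < |∑ p ∈ Pb (y b) (y (b + 1)), (ω * XG N (Sy N (y b)) ((j : ℝ) / (4 * N : ℕ)) p T).re ^ 2 -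
        vb N y b|) ≤ 4 * N * (K * (N : ℝ) ^ (-(4 : ℝ))) := by
    refine (pr_exists _ _ _).trans ?_
    have h1 : ∀ j ∈ I, pr (PP N) (fun T => ∃ b ∈ range K, (∃ p ∈ Pb (y b) (y (b + 1)),
        (N : ℝ) ^ (1 / 2 - β) < |(ω * XG N (Sy N (y b)) ((j : ℝ) / (4 * N : ℕ)) p T).re|) ∨
      (N : ℝ) ^ (1 - β) < |∑ p ∈ Pb (y b) (y (b + 1)), (ω * XG N (Sy N (y b)) ((j : ℝ) / (4 * N : ℕ)) p T).re ^ 2 -
        vb N y b|) ≤ K * (N : ℝ) ^ (-(4 : ℝ)) := by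
      intro j hj
      obtain ⟨f1, f2, f3⟩ := IG_far hN1 (hIG hj)
      refine (pr_exists _ _ _).trans ?_
      refine (Finset.sum_le_sum fun b hb => ?_).trans (le_of_eq (by rw [sum_const, card_range, nsmul_eq_mul]))
      rw [hydef]
      exact hNC N n3 _ _ f1 f2 f3 b (mem_range.1 hb) ω hω
    refine (Finset.sum_le_sum h1).trans ?_
    rw [sum_const, nsmul_eq_mul]
    exact mul_le_mul_of_nonneg_right hIc2 (by positivity)
  -- second event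
  have hA2 : pr (PP N) (fun T => ∃ j ∈ I, r * (δ / 4) * tg N <
      ‖SN N T ((j : ℝ) / (4 * N : ℕ)) - Mn N y K ((j : ℝ) / (4 * N : ℕ)) T‖) ≤
      3000 * (N : ℝ) ^ (-(1 / 32) : ℝ) + 4 * N * (N : ℝ) ^ (-(2 : ℝ)) := by
    refine (pr_exists _ _ _).trans ?_
    have h1 : ∀ j ∈ I, pr (PP N) (fun T => r * (δ / 4) * tg N <
      ‖SN N T ((j : ℝ) / (4 * N : ℕ)) - Mn N y K ((j : ℝ) / (4 * N : ℕ)) T‖) ≤
        (DD (4 * N) ((j : ℝ) / (4 * N : ℕ)) / 4) ^ (-(9 / 4) : ℝ) + (N : ℝ) ^ (-(2 : ℝ)) := by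
      intro j hj
      obtain ⟨f1, f2, f3⟩ := IG_far hN1 (hIG hj)
      rw [hydef]
      exact hNR N n2 _ _ f1 f2 f3
    refine (Finset.sum_le_sum h1).trans ?_
    rw [sum_add_distrib, sum_const, nsmul_eq_mul]
    refine add_le_add ?_ (mul_le_mul_of_nonneg_right hIc2 (by positivity))
    refine (Finset.sum_le_sum_of_subset_of_nonneg hIG fun j hj _ => ?_).trans (IG_sum hN1)
    obtain ⟨f1, f2, f3⟩ := IG_far hN1 hj
    have : 0 ≤ DD (4 * N) ((j : ℝ) / (4 * N : ℕ)) / 4 := le_trans (by positivity) f2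
    positivity
  -- third event
  have hA3 : pr (PP N) (fun T => (∀ b < K, ∀ j ∈ I, cnd y (aw N ω y) lam ℓ ((N : ℝ) ^ (-(β / 2))) b j T) ∧
        ∑ j ∈ I, wt y (aw N ω y) lam (σ * Real.log N) ℓ K j T < (1 / 4 : ℝ) ^ K * I.card) ≤
      K * (C2 / (b - a) * (1 + Real.log N) * (N : ℝ) ^ (-(δ / 8 * u / 4)) +
        64 * Real.exp C1 * (N : ℝ) ^ (-(σ ^ 2 / 2))) := by
    rw [← hydef] at hy hyK
    have hres : pr (PP N) (fun T => (∀ b < K, ∀ j ∈ I, cnd y (aw N ω y) lam ℓ ((N : ℝ) ^ (-(β / 2))) b j T) ∧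
        ∑ j ∈ I, wt y (aw N ω y) lam (σ * Real.log N) ℓ K j T < (1 / 4 : ℝ) ^ K * I.card) =
        pr (PP (y K)) (fun T => (∀ b < K, ∀ j ∈ I, cnd y (aw N ω y) lam ℓ ((N : ℝ) ^ (-(β / 2))) b j T) ∧
        ∑ j ∈ I, wt y (aw N ω y) lam (σ * Real.log N) ℓ K j T < (1 / 4 : ℝ) ^ K * I.card) := by
      refine Pool.Agent.Helper5.RS.pr_restrict (PP_mono hyK) _ fun T _ => ?_
      have e1 : ∀ j, wt y (aw N ω y) lam (σ * Real.log N) ℓ K j (T ∩ PP (y K)) =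
          wt y (aw N ω y) lam (σ * Real.log N) ℓ K j T := fun j =>
        wt_inter y (aw N ω y) lam (σ * Real.log N) ℓ hy (aw_inter N ω y) K j T (y K) le_rfl
      have e2 : ∀ b < K, ∀ j, (cnd y (aw N ω y) lam ℓ ((N : ℝ) ^ (-(β / 2))) b j (T ∩ PP (y K)) ↔
          cnd y (aw N ω y) lam ℓ ((N : ℝ) ^ (-(β / 2))) b j T) := fun b hb j =>
        cnd_inter y (aw N ω y) lam ℓ (aw_inter N ω y) _ b j T (y K) (hy hb.le)
      constructor
      · rintro ⟨h1, h2⟩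
        refine ⟨fun b hb j hj => (e2 b hb j).2 (h1 b hb j hj), ?_⟩
        simpa only [e1] using h2
      · rintro ⟨h1, h2⟩
        refine ⟨fun b hb j hj => (e2 b hb j).1 (h1 b hb j hj), ?_⟩
        simpa only [e1] using h2
    rw [hres]
    have hit := iterate y (aw N ω y) lam (σ * Real.log N) ℓ hstep hy (aw_inter N ω y) hlam (4 * N) I hI1 hI0
      (fun b => (N : ℝ) / (y b : ℝ)) (fun b => by positivity)
      (fun b T p hp p' hp' hne => by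
        unfold Pb at hp hp'
        rw [mem_filter, mem_Ioc] at hp hp'
        exact horth N (y b) (4 * N) (by omega) ω T p p' hp.2 hp'.2 hp.1.1 hp'.1.1 hne)
      (fun b T p hp => by
        unfold Pb at hp
        rw [mem_filter, mem_Ioc] at hp
        refine (hnorm N (4 * N) (by omega) ω hω (Sy N (y b)) T p hp.2.one_lt.le).trans ?_
        refine mul_le_mul_of_nonneg_left ?_ (Nat.cast_nonneg _)
        have h1 : ((N / p : ℕ) : ℝ) ≤ (N : ℝ) / p := Nat.cast_div_le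
        refine h1.trans ?_
        have h2 : (0 : ℝ) < y b := by
          rw [hydef]
          exact_mod_cast yb_one hc1' hη hN1 K b
        have h3 : (y b : ℝ) ≤ p := by exact_mod_cast hp.1.1.le
        exact div_le_div_of_nonneg_left hN0.le h2 h3)
      ((N : ℝ) ^ (-(β / 2))) σ hτ hτ2 hσ0 hσ1 K (fun b _ => ⟨hℓ0 b, hℓτ b⟩)
    refine hit.trans ?_
    refine (Finset.sum_le_sum fun b' hb' => add_le_add ?_ ?_).trans
      (le_of_eq (by rw [sum_const, card_range, nsmul_eq_mul]))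
    · have hbK : b' ≤ K := (mem_range.1 hb').le
      have e1 : ∑ b'' ∈ range b', (ℓ b'' / 2 + σ * Real.log N + 2) =
          (∑ b'' ∈ range b', ℓ b'') / 2 + b' * (σ * Real.log N + 2) := by
        have : ∀ b'' ∈ range b', (ℓ b'' / 2 + σ * Real.log N + 2) = ℓ b'' / 2 + (σ * Real.log N + 2) :=
          fun b'' _ => by ring
        rw [Finset.sum_congr rfl this, sum_add_distrib, sum_const, card_range, nsmul_eq_mul, Finset.sum_div]
      rw [e1]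
      have hubK : u / 2 ≤ uu c η K b' := hKu.trans (uu_mono hc1' hη K (Nat.zero_le b'))
      have e2 : (I.card : ℝ) = (I.card / (b - a)) * (b - a) := by field_simp
      have e3 : 2 * (N : ℝ) ≤ I.card / (b - a) := by rw [le_div_iff₀ hw0]; exact hIc
      have e4 := term_bound hN2 (δ / 8) u (uu c η K b') σ η Ce C1 (σ * Real.log N) (y b') (lam ^ 2)
        (∑ b'' ∈ range b', ℓ b'') (ℓ b') (I.card / (b - a)) K b' hbK (by positivity) hδ8.le hu hubK hKσ hσ0.le hηc rfl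
        (by rw [hydef]; exact yb_ge hc1' hη hN1 K b') hlam7
        (by
          refine (hSell b' hbK).trans (mul_le_of_le_one_left ?_ hr2)
          have : 0 ≤ uu c η K b' := by linarith
          positivity)
        (hℓ0 b') (hℓ1 b') e3
      rw [← hC2def] at e4
      have e5 : ∀ X : ℝ, X / ((1 / 4 : ℝ) ^ b' * I.card) = (X / ((1 / 4 : ℝ) ^ b' * (I.card / (b - a)))) / (b - a) := by
        intro X
        exact div_aux51 X _ _ _ hw0.ne'
      rw [e5]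
      refine (div_le_div_of_nonneg_right e4 hw0.le).trans (le_of_eq ?_)
      ring
    · exact term_bound2 hN2 σ η C1 (ℓ b') hσ0.le hσ1 hη14 (hℓ1 b') hC1.le
  refine (add_le_add hA1 (add_le_add hA2 hA3)).trans ?_
  -- final numerics
  have hmon : ∀ x : ℝ, e1 ≤ x → (N : ℝ) ^ (-x) ≤ (N : ℝ) ^ (-e1) := fun x hx =>
    Real.rpow_le_rpow_of_exponent_le hN1' (by linarith)
  have g1 : 4 * N * (K * (N : ℝ) ^ (-(4 : ℝ))) ≤ 4 * K * (N : ℝ) ^ (-e1) := by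
    have h1 : (N : ℝ) * (N : ℝ) ^ (-(4 : ℝ)) = (N : ℝ) ^ (-(3 : ℝ)) := by
      nth_rewrite 1 [← Real.rpow_one (N : ℝ)]
      rw [← Real.rpow_add hN0]; norm_num
    have h2 := hmon 3 (by linarith)
    calc 4 * N * (K * (N : ℝ) ^ (-(4 : ℝ))) = 4 * K * (N * (N : ℝ) ^ (-(4 : ℝ))) := by ring
      _ ≤ 4 * K * (N : ℝ) ^ (-e1) := by rw [h1]; gcongr
  have g2 : 4 * N * (N : ℝ) ^ (-(2 : ℝ)) ≤ 4 * (N : ℝ) ^ (-e1) := by
    have h1 : (N : ℝ) * (N : ℝ) ^ (-(2 : ℝ)) = (N : ℝ) ^ (-(1 : ℝ)) := by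
      nth_rewrite 1 [← Real.rpow_one (N : ℝ)]
      rw [← Real.rpow_add hN0]; norm_num
    have h2 := hmon 1 (by linarith)
    calc 4 * N * (N : ℝ) ^ (-(2 : ℝ)) = 4 * (N * (N : ℝ) ^ (-(2 : ℝ))) := by ring
      _ ≤ 4 * (N : ℝ) ^ (-e1) := by rw [h1]; gcongr
  have g3 := hmon (1 / 32) he11
  have g4 := hmon (δ / 8 * u / 4) he12
  have g5 := hmon (σ ^ 2 / 2) he13
  obtain ⟨C4, hC4def⟩ : ∃ C4, C4 = C2 / (b - a) := ⟨_, rfl⟩
  rw [← hC4def] at hs3 ⊢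
  have hC4 : 0 < C4 := by rw [hC4def]; positivity
  have hNa0 : 0 < (N : ℝ) ^ (-e1) := by positivity
  have g6 : (K : ℝ) * (C4 * (1 + Real.log N) * (N : ℝ) ^ (-(δ / 8 * u / 4)) + 64 * Real.exp C1 * (N : ℝ) ^ (-(σ ^ 2 / 2))) ≤
      K * (C4 * (1 + Real.log N) * (N : ℝ) ^ (-e1) + 64 * Real.exp C1 * (N : ℝ) ^ (-e1)) := by
    gcongr
  have g7 : 4 * K * (N : ℝ) ^ (-e1) + (3000 * (N : ℝ) ^ (-e1) + 4 * (N : ℝ) ^ (-e1) +
      K * (C4 * (1 + Real.log N) * (N : ℝ) ^ (-e1) + 64 * Real.exp C1 * (N : ℝ) ^ (-e1))) ≤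
      ((4 * K + 3004 + K * (C4 + 64 * Real.exp C1)) * (1 + Real.log N)) * (N : ℝ) ^ (-e1) := by
    have h1 : 4 * K * (N : ℝ) ^ (-e1) + (3000 * (N : ℝ) ^ (-e1) + 4 * (N : ℝ) ^ (-e1) +
      K * (C4 * (1 + Real.log N) * (N : ℝ) ^ (-e1) + 64 * Real.exp C1 * (N : ℝ) ^ (-e1))) =
      (4 * K + 3004 + K * (C4 * (1 + Real.log N) + 64 * Real.exp C1)) * (N : ℝ) ^ (-e1) := by ring
    rw [h1]
    refine mul_le_mul_of_nonneg_right ?_ hNa0.le
    have h2 : 0 ≤ 4 * (K : ℝ) * Real.log N := by positivity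
    have h3 : 0 ≤ (K : ℝ) * (64 * Real.exp C1) * Real.log N := by positivity
    linarith
  have g8 : (N : ℝ) ^ (-e1) = (N : ℝ) ^ (-(e1 / 2)) * (N : ℝ) ^ (-(e1 / 2)) := by
    rw [← Real.rpow_add hN0]; congr 1; ring
  have g9 : ((4 * K + 3004 + K * (C4 + 64 * Real.exp C1)) * (1 + Real.log N)) * (N : ℝ) ^ (-e1) ≤ (N : ℝ) ^ (-(e1 / 2)) := by
    rw [g8, ← mul_assoc]
    have h1 : 0 ≤ (N : ℝ) ^ (-(e1 / 2)) := by positivity
    exact mul_le_of_le_one_left h1 hs3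
  linarith

end Pool.Agent.Helper51.EA
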