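import Pool.Agent.Helper51.EA.Defs

/-!
# Project EA, thick points: the number of grid points
-/

set_option autoImplicit false

namespace Pool.Agent.Helper51.EA

open Finset

open Classical in
/-- the number of the grid points `j / G`, `j < G`, with the property `P` -/
noncomputable def cnt (G : ℕ) (P : ℝ → Prop) : ℕ := ((range G).filter (fun j : ℕ => P ((j : ℝ) / G))).card

lemma cnt_mono {G : ℕ} {P Q : ℝ → Prop} (h : ∀ j < G, P ((j : ℝ) / G) → Q ((j : ℝ) / G)) : cnt G P ≤ cnt G Q := by
  classical
  unfold cnt
  refine card_le_card fun j hj => ?_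
  rw [mem_filter, mem_range] at hj ⊢
  exact ⟨hj.1, h j hj.1 hj.2⟩

end Pool.Agent.Helper51.EA
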