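import Pool.Agent.Helper51.EA.Defs
import Pool.Agent.Helper11.RL.BC
import Pool.Agent.Helper5.RS.Fub

/-!
# Project EA, block E11, part 1: the iteration over the blocks
-/

set_option autoImplicit false

namespace Pool.Agent.Helper51.EA

open Finset Pool.Agent.Helper5.RM Pool.Agent.Helper5.RS

/-- the statement of block E1 (`step`) -/
def StepStmt : Prop := ∀ (S : Finset ℕ) (a : ℕ → ℕ → ℝ) (J : ℕ) (I : Finset ℕ) (_ : I ⊆ range J) (w : ℕ → ℝ)
    (lam τ ℓ s ϑ A Wm : ℝ) (_ : ∀ j ∈ I, 0 ≤ w j) (_ : ∀ j ∈ I, w j ≤ Wm) (_ : 0 < ∑ j ∈ I, w j)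
    (_ : 0 < lam) (_ : 0 ≤ A)
    (_ : ∀ p ∈ S, ∀ p' ∈ S, p ≠ p' → ∑ j ∈ range J, a p j * a p' j = 0)
    (_ : ∀ p ∈ S, ∑ j ∈ range J, a p j ^ 2 ≤ J * A)
    (_ : 0 < τ) (_ : τ ≤ 1 / 2) (_ : ∀ p ∈ S, ∀ j ∈ I, |lam * a p j| ≤ τ) (_ : 0 ≤ ℓ) (_ : τ * (ℓ + 1) ≤ 1)
    (_ : ∀ j ∈ I, |∑ p ∈ S, (lam * a p j) ^ 2 - ℓ| ≤ τ) (_ : 0 < ϑ) (_ : ϑ ≤ 1),
    pr S (fun T => ∑ j ∈ I, (if |lam * ∑ p ∈ S, sg T p * a p j - ℓ| ≤ s then
        w j * ∏ p ∈ S, (1 + sg T p * (lam * a p j)) else 0) < (1 / 4) * ∑ j ∈ I, w j) ≤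
      4 * (lam ^ 2 * A * J * Wm * (1 + (ℓ + 1) * Real.exp (ℓ + 1))) / (∑ j ∈ I, w j) +
        64 * Real.exp (-(ϑ * s) + ϑ ^ 2 * ℓ / 2)

lemma PP_succ {y y' : ℕ} (h : y ≤ y') : PP y' = PP y ∪ Pb y y' := by
  ext p
  simp only [mem_PP, mem_union, Pb, mem_filter, mem_Ioc]
  constructor
  · rintro ⟨h1, h2⟩
    rcases le_or_gt p y with h3 | h3
    · exact Or.inl ⟨h1, h3⟩
    · exact Or.inr ⟨⟨h3, h2⟩, h1⟩
  · rintro (⟨h1, h2⟩ | ⟨⟨h1, h2⟩, h3⟩)
    · exact ⟨h1, h2.trans h⟩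
    · exact ⟨h3, h2⟩

lemma PP_disj (y y' : ℕ) : Disjoint (PP y) (Pb y y') := by
  rw [Finset.disjoint_left]
  intro p h1 h2
  rw [mem_PP] at h1
  simp only [Pb, mem_filter, mem_Ioc] at h2
  omega

lemma PP_mono {y y' : ℕ} (h : y ≤ y') : PP y ⊆ PP y' := by
  intro p hp
  rw [mem_PP] at hp ⊢
  exact ⟨hp.1, hp.2.trans h⟩

section

variable (y : ℕ → ℕ) (a : ℕ → ℕ → ℕ → Finset ℕ → ℝ) (lam s : ℝ) (ℓ : ℕ → ℝ)

/-- the weights -/
noncomputable def wt : ℕ → ℕ → Finset ℕ → ℝ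
  | 0, _, _ => 1
  | b + 1, j, T => if |lam * ∑ p ∈ Pb (y b) (y (b + 1)), sg T p * a b p j T - ℓ b| ≤ s then
      wt b j T * ∏ p ∈ Pb (y b) (y (b + 1)), (1 + sg T p * (lam * a b p j T)) else 0

/-- the conditions at block `b` -/
def cnd (τ : ℝ) (b j : ℕ) (T : Finset ℕ) : Prop :=
  (∀ p ∈ Pb (y b) (y (b + 1)), |lam * a b p j T| ≤ τ) ∧
    |∑ p ∈ Pb (y b) (y (b + 1)), (lam * a b p j T) ^ 2 - ℓ b| ≤ τ

lemma wt_inter (hy : Monotone y) (ha : ∀ b p j T, a b p j (T ∩ PP (y b)) = a b p j T) (b j : ℕ) (T : Finset ℕ) (M : ℕ)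
    (hM : y b ≤ M) : wt y a lam s ℓ b j (T ∩ PP M) = wt y a lam s ℓ b j T := by
  induction b with
  | zero => rfl
  | succ b ih =>
    have h1 : y b ≤ M := (hy (Nat.le_succ b)).trans hM
    have ha' : ∀ p, a b p j (T ∩ PP M) = a b p j T := by
      intro p
      rw [← ha b p j (T ∩ PP M), ← ha b p j T]
      congr 1
      ext q
      simp only [mem_inter]
      constructor
      · rintro ⟨⟨h2, _⟩, h3⟩; exact ⟨h2, h3⟩
      · rintro ⟨h2, h3⟩; exact ⟨⟨h2, PP_mono h1 h3⟩, h3⟩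
    have hsg : ∀ p ∈ Pb (y b) (y (b + 1)), sg (T ∩ PP M) p = sg T p := by
      intro p hp
      have hpM : p ∈ PP M := by
        simp only [Pb, mem_filter, mem_Ioc] at hp
        rw [mem_PP]
        exact ⟨hp.2, hp.1.2.trans hM⟩
      unfold sg
      by_cases h : p ∈ T
      · rw [if_pos h, if_pos (mem_inter.2 ⟨h, hpM⟩)]
      · rw [if_neg h, if_neg (fun h2 => h (mem_inter.1 h2).1)]
    have e1 : ∑ p ∈ Pb (y b) (y (b + 1)), sg (T ∩ PP M) p * a b p j (T ∩ PP M) =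
        ∑ p ∈ Pb (y b) (y (b + 1)), sg T p * a b p j T :=
      Finset.sum_congr rfl fun p hp => by rw [hsg p hp, ha' p]
    have e2 : ∏ p ∈ Pb (y b) (y (b + 1)), (1 + sg (T ∩ PP M) p * (lam * a b p j (T ∩ PP M))) =
        ∏ p ∈ Pb (y b) (y (b + 1)), (1 + sg T p * (lam * a b p j T)) :=
      Finset.prod_congr rfl fun p hp => by rw [hsg p hp, ha' p]
    unfold wt
    rw [e1, e2, ih h1]

lemma cnd_inter (ha : ∀ b p j T, a b p j (T ∩ PP (y b)) = a b p j T) (τ : ℝ) (b j : ℕ) (T : Finset ℕ) (M : ℕ)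
    (hM : y b ≤ M) : cnd y a lam ℓ τ b j (T ∩ PP M) ↔ cnd y a lam ℓ τ b j T := by
  have ha' : ∀ p, a b p j (T ∩ PP M) = a b p j T := by
    intro p
    rw [← ha b p j (T ∩ PP M), ← ha b p j T]
    congr 1
    ext q
    simp only [mem_inter]
    constructor
    · rintro ⟨⟨h2, _⟩, h3⟩; exact ⟨h2, h3⟩
    · rintro ⟨h2, h3⟩; exact ⟨⟨h2, PP_mono hM h3⟩, h3⟩
  unfold cnd
  simp only [ha']

lemma log_le3 {x : ℝ} (h : |x| ≤ 1 / 2) : Real.log (1 + x) ≤ x - x ^ 2 / 2 + |x| ^ 3 := by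
  have hx := abs_le.1 h
  rcases le_or_gt 0 x with h0 | h0
  · have h1 : 1 + x ≤ Real.exp (x - x ^ 2 / 2 + x ^ 3) := by
      have h2 : (x - x ^ 2 / 2 + x ^ 3) + (x - x ^ 2 / 2 + x ^ 3) ^ 2 / 2 + 1 ≤ Real.exp (x - x ^ 2 / 2 + x ^ 3) := by
        have h3 := Real.quadratic_le_exp_of_nonneg (x := x - x ^ 2 / 2 + x ^ 3) (by nlinarith [pow_nonneg h0 3])
        linarith
      refine le_trans ?_ h2
      have h4 : 0 ≤ x ^ 3 := by positivity
      have h5 : 0 ≤ x ^ 2 := by positivity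
      nlinarith [mul_nonneg h5 h0, mul_nonneg h5 h5, mul_nonneg h4 h4, mul_nonneg h4 h5]
    rw [abs_of_nonneg h0]
    calc Real.log (1 + x) ≤ Real.log (Real.exp (x - x ^ 2 / 2 + x ^ 3)) := Real.log_le_log (by linarith) h1
      _ = _ := Real.log_exp _
  · -- x < 0: log (1 + x) ≤ x - x^2/2 ≤ x - x^2/2 + |x|^3
    have h1 : Real.log (1 + x) ≤ x - x ^ 2 / 2 := by
      have h2 : 0 < 1 + x := by linarith
      have h3 : Real.log (1 + x) = -Real.log ((1 + x)⁻¹) := by rw [Real.log_inv, neg_neg]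
      -- log(1+x) ≤ x - x²/2 for -1 < x ≤ 0: by monotonicity
      have key : ∀ t : ℝ, 0 ≤ t → t < 1 → Real.log (1 - t) ≤ -t - t ^ 2 / 2 := by
        intro t ht0 ht1
        have h4 := Real.hasSum_pow_div_log_of_abs_lt_one (x := t) (by rw [abs_lt]; constructor <;> linarith)
        have h5 : ∑ i ∈ Finset.range 2, t ^ (i + 1) / ((i : ℝ) + 1) ≤ -Real.log (1 - t) :=
          sum_le_hasSum _ (fun i _ => by positivity) h4
        simp only [Finset.sum_range_succ, Finset.sum_range_zero] at h5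
        norm_num at h5
        linarith
      have h6 := key (-x) (by linarith) (by linarith)
      have h7 : 1 - -x = 1 + x := by ring
      rw [h7] at h6
      nlinarith
    have h2 : 0 ≤ |x| ^ 3 := by positivity
    linarith

lemma wt_le (τ : ℝ) (hτ0 : 0 < τ) (hτ1 : τ ≤ 1 / 2) (b : ℕ) (hℓ : ∀ b' < b, 0 ≤ ℓ b' ∧ τ * (ℓ b' + 1) ≤ 1)
    (j : ℕ) (T : Finset ℕ) (hc : ∀ b' < b, cnd y a lam ℓ τ b' j T) :
    0 ≤ wt y a lam s ℓ b j T ∧ wt y a lam s ℓ b j T ≤ Real.exp (∑ b' ∈ range b, (ℓ b' / 2 + s + 2)) := by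
  induction b with
  | zero => simp [wt]
  | succ b ih =>
    obtain ⟨i1, i2⟩ := ih (fun b' hb' => hℓ b' (by omega)) (fun b' hb' => hc b' (by omega))
    obtain ⟨c1, c2⟩ := hc b (Nat.lt_succ_self b)
    obtain ⟨l1, l2⟩ := hℓ b (Nat.lt_succ_self b)
    have ht : ∀ p ∈ Pb (y b) (y (b + 1)), |sg T p * (lam * a b p j T)| ≤ τ := by
      intro p hp
      rw [abs_mul, abs_sg, one_mul]
      exact c1 p hp
    have hpos : ∀ p ∈ Pb (y b) (y (b + 1)), 0 < 1 + sg T p * (lam * a b p j T) := by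
      intro p hp
      have := abs_le.1 (ht p hp)
      linarith
    have hW0 : 0 ≤ ∏ p ∈ Pb (y b) (y (b + 1)), (1 + sg T p * (lam * a b p j T)) :=
      Finset.prod_nonneg fun p hp => (hpos p hp).le
    unfold wt
    split_ifs with h
    · refine ⟨mul_nonneg i1 hW0, ?_⟩
      have hlog : Real.log (∏ p ∈ Pb (y b) (y (b + 1)), (1 + sg T p * (lam * a b p j T))) ≤ ℓ b / 2 + s + 2 := by
        rw [Real.log_prod (fun p hp => (hpos p hp).ne')]
        have h1 : ∑ p ∈ Pb (y b) (y (b + 1)), Real.log (1 + sg T p * (lam * a b p j T)) ≤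
            ∑ p ∈ Pb (y b) (y (b + 1)), (lam * (sg T p * a b p j T) - (lam * a b p j T) ^ 2 / 2 +
              τ * (lam * a b p j T) ^ 2) := by
          refine Finset.sum_le_sum fun p hp => ?_
          have h2 := log_le3 ((ht p hp).trans hτ1)
          have h3 : (sg T p * (lam * a b p j T)) ^ 2 = (lam * a b p j T) ^ 2 := by
            rw [mul_pow, sg_sq, one_mul]
          have h4 : |sg T p * (lam * a b p j T)| ^ 3 ≤ τ * (lam * a b p j T) ^ 2 := by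
            have h5 : |sg T p * (lam * a b p j T)| ^ 3 = |sg T p * (lam * a b p j T)| * (sg T p * (lam * a b p j T)) ^ 2 := by
              rw [pow_succ, sq_abs]; ring
            rw [h5, h3]
            exact mul_le_mul_of_nonneg_right (ht p hp) (by positivity)
          rw [h3] at h2
          linarith
        refine h1.trans ?_
        rw [Finset.sum_add_distrib, Finset.sum_sub_distrib, ← Finset.mul_sum, ← Finset.sum_div, ← Finset.mul_sum]
        have h6 := abs_le.1 h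
        have h7 := abs_le.1 c2
        set V := ∑ p ∈ Pb (y b) (y (b + 1)), (lam * a b p j T) ^ 2 with hV
        have h8 : τ * V ≤ τ * (ℓ b + 1) := mul_le_mul_of_nonneg_left (by linarith) hτ0.le
        linarith
      have hWle : ∏ p ∈ Pb (y b) (y (b + 1)), (1 + sg T p * (lam * a b p j T)) ≤ Real.exp (ℓ b / 2 + s + 2) := by
        have h9 : 0 < ∏ p ∈ Pb (y b) (y (b + 1)), (1 + sg T p * (lam * a b p j T)) := Finset.prod_pos hpos
        rwa [← Real.log_le_iff_le_exp h9]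
      rw [Finset.sum_range_succ, Real.exp_add]
      exact mul_le_mul i2 hWle hW0 (Real.exp_pos _).le
    · exact ⟨le_rfl, (Real.exp_pos _).le⟩

/-- the iteration -/
theorem iterate (hstep : StepStmt) (hy : Monotone y) (ha : ∀ b p j T, a b p j (T ∩ PP (y b)) = a b p j T) (hlam : 0 < lam)
    (J : ℕ) (I : Finset ℕ) (hI : I ⊆ range J) (hI0 : 0 < I.card) (A : ℕ → ℝ) (hA : ∀ b, 0 ≤ A b)
    (ho : ∀ b T, ∀ p ∈ Pb (y b) (y (b + 1)), ∀ p' ∈ Pb (y b) (y (b + 1)), p ≠ p' →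
      ∑ j ∈ range J, a b p j T * a b p' j T = 0)
    (hn : ∀ b T, ∀ p ∈ Pb (y b) (y (b + 1)), ∑ j ∈ range J, a b p j T ^ 2 ≤ J * A b)
    (τ ϑ : ℝ) (hτ0 : 0 < τ) (hτ1 : τ ≤ 1 / 2) (hϑ0 : 0 < ϑ) (hϑ1 : ϑ ≤ 1) (K : ℕ)
    (hℓ : ∀ b < K, 0 ≤ ℓ b ∧ τ * (ℓ b + 1) ≤ 1) :
    pr (PP (y K)) (fun T => (∀ b < K, ∀ j ∈ I, cnd y a lam ℓ τ b j T) ∧
        ∑ j ∈ I, wt y a lam s ℓ K j T < (1 / 4 : ℝ) ^ K * I.card) ≤
      ∑ b ∈ range K, (4 * (lam ^ 2 * A b * J * Real.exp (∑ b' ∈ range b, (ℓ b' / 2 + s + 2)) *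
        (1 + (ℓ b + 1) * Real.exp (ℓ b + 1))) / ((1 / 4 : ℝ) ^ b * I.card) + 64 * Real.exp (-(ϑ * s) + ϑ ^ 2 * ℓ b / 2)) := by
  classical
  induction K with
  | zero =>
    rw [Finset.sum_range_zero]
    refine (pr_false _ fun T _ h => ?_).le
    have h1 := h.2
    simp [wt] at h1
  | succ K ih =>
    rw [Finset.sum_range_succ]
    have hK := hℓ K (Nat.lt_succ_self K)
    have ih' := ih (fun b hb => hℓ b (by omega))
    have hyK : y K ≤ y (K + 1) := hy (Nat.le_succ K)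
    -- split the event
    have hsplit : pr (PP (y (K + 1))) (fun T => (∀ b < K + 1, ∀ j ∈ I, cnd y a lam ℓ τ b j T) ∧
        ∑ j ∈ I, wt y a lam s ℓ (K + 1) j T < (1 / 4 : ℝ) ^ (K + 1) * I.card) ≤
        pr (PP (y (K + 1))) (fun T => (∀ b < K, ∀ j ∈ I, cnd y a lam ℓ τ b j T) ∧
          ∑ j ∈ I, wt y a lam s ℓ K j T < (1 / 4 : ℝ) ^ K * I.card) +
        pr (PP (y (K + 1))) (fun T => (∀ b < K + 1, ∀ j ∈ I, cnd y a lam ℓ τ b j T) ∧
          (1 / 4 : ℝ) ^ K * I.card ≤ ∑ j ∈ I, wt y a lam s ℓ K j T ∧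
          ∑ j ∈ I, wt y a lam s ℓ (K + 1) j T < (1 / 4) * ∑ j ∈ I, wt y a lam s ℓ K j T) := by
      refine pr_le_add fun T _ h => ?_
      rcases lt_or_ge (∑ j ∈ I, wt y a lam s ℓ K j T) ((1 / 4 : ℝ) ^ K * I.card) with h1 | h1
      · exact Or.inl ⟨fun b hb => h.1 b (by omega), h1⟩
      · refine Or.inr ⟨h.1, h1, lt_of_lt_of_le h.2 ?_⟩
        rw [pow_succ]
        nlinarith
    refine hsplit.trans (add_le_add ?_ ?_)
    · -- the first event depends only on the primes up to `y K`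
      refine le_trans (le_of_eq ?_) ih'
      refine Pool.Agent.Helper5.RS.pr_restrict (PP_mono hyK) _ fun T _ => ?_
      have e1 : ∀ j, wt y a lam s ℓ K j (T ∩ PP (y K)) = wt y a lam s ℓ K j T := fun j =>
        wt_inter y a lam s ℓ hy ha K j T (y K) le_rfl
      have e2 : ∀ b < K, ∀ j, (cnd y a lam ℓ τ b j (T ∩ PP (y K)) ↔ cnd y a lam ℓ τ b j T) := fun b hb j =>
        cnd_inter y a lam ℓ ha τ b j T (y K) (hy hb.le)
      constructor
      · rintro ⟨h1, h2⟩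
        refine ⟨fun b hb j hj => (e2 b hb j).2 (h1 b hb j hj), ?_⟩
        simpa only [e1] using h2
      · rintro ⟨h1, h2⟩
        refine ⟨fun b hb j hj => (e2 b hb j).1 (h1 b hb j hj), ?_⟩
        simpa only [e1] using h2
    · -- the second event
      rw [PP_succ hyK]
      refine Pool.Agent.Helper11.RL.pr_split_le (PP_disj _ _) _ _ fun T0 hT0 => ?_
      have hinter : ∀ T1 ⊆ Pb (y K) (y (K + 1)), (T0 ∪ T1) ∩ PP (y K) = T0 := by
        intro T1 hT1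
        ext q
        simp only [mem_inter, mem_union]
        constructor
        · rintro ⟨h1 | h1, h2⟩
          · exact h1
          · exact absurd (hT1 h1) (Finset.disjoint_left.1 (PP_disj _ _) h2)
        · intro h1
          exact ⟨Or.inl h1, hT0 h1⟩
      have hw : ∀ T1 ⊆ Pb (y K) (y (K + 1)), ∀ j, wt y a lam s ℓ K j (T0 ∪ T1) = wt y a lam s ℓ K j T0 := by
        intro T1 hT1 j
        rw [← wt_inter y a lam s ℓ hy ha K j (T0 ∪ T1) (y K) le_rfl, hinter T1 hT1]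
      have hcn : ∀ T1 ⊆ Pb (y K) (y (K + 1)), ∀ b < K + 1, ∀ j,
          (cnd y a lam ℓ τ b j (T0 ∪ T1) ↔ cnd y a lam ℓ τ b j T0) := by
        intro T1 hT1 b hb j
        rw [← cnd_inter y a lam ℓ ha τ b j (T0 ∪ T1) (y K) (hy (by omega)), hinter T1 hT1]
      have haa : ∀ T1 ⊆ Pb (y K) (y (K + 1)), ∀ p j, a K p j (T0 ∪ T1) = a K p j T0 := by
        intro T1 hT1 p j
        rw [← ha K p j (T0 ∪ T1), hinter T1 hT1]
      have hsg : ∀ T1 ⊆ Pb (y K) (y (K + 1)), ∀ p ∈ Pb (y K) (y (K + 1)), sg (T0 ∪ T1) p = sg T1 p := by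
        intro T1 _ p hp
        have hp0 : p ∉ T0 := fun h => Finset.disjoint_left.1 (PP_disj _ _) (hT0 h) hp
        unfold sg
        by_cases h : p ∈ T1
        · rw [if_pos h, if_pos (mem_union_right _ h)]
        · rw [if_neg h, if_neg (fun h2 => (mem_union.1 h2).elim hp0 h)]
      have hnn : 0 ≤ 4 * (lam ^ 2 * A K * J * Real.exp (∑ b' ∈ range K, (ℓ b' / 2 + s + 2)) *
        (1 + (ℓ K + 1) * Real.exp (ℓ K + 1))) / ((1 / 4 : ℝ) ^ K * I.card) + 64 * Real.exp (-(ϑ * s) + ϑ ^ 2 * ℓ K / 2) := by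
        have := hA K
        have := hK.1
        positivity
      by_cases hgood : (∀ b < K + 1, ∀ j ∈ I, cnd y a lam ℓ τ b j T0) ∧
          (1 / 4 : ℝ) ^ K * I.card ≤ ∑ j ∈ I, wt y a lam s ℓ K j T0
      · obtain ⟨g1, g2⟩ := hgood
        have hIc : (0 : ℝ) < I.card := by exact_mod_cast hI0
        have hZ : 0 < ∑ j ∈ I, wt y a lam s ℓ K j T0 := lt_of_lt_of_le (by positivity) g2
        have hb : ∀ j ∈ I, 0 ≤ wt y a lam s ℓ K j T0 ∧
            wt y a lam s ℓ K j T0 ≤ Real.exp (∑ b' ∈ range K, (ℓ b' / 2 + s + 2)) := fun j hj =>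
          wt_le y a lam s ℓ τ hτ0 hτ1 K (fun b' hb' => hℓ b' (by omega)) j T0 (fun b' hb' => g1 b' (by omega) j hj)
        have h1 := hstep (Pb (y K) (y (K + 1))) (fun p j => a K p j T0) J I hI (fun j => wt y a lam s ℓ K j T0)
          lam τ (ℓ K) s ϑ (A K) (Real.exp (∑ b' ∈ range K, (ℓ b' / 2 + s + 2))) (fun j hj => (hb j hj).1)
          (fun j hj => (hb j hj).2) hZ hlam (hA K) (fun p hp p' hp' hne => ho K T0 p hp p' hp' hne)
          (fun p hp => hn K T0 p hp) hτ0 hτ1 (fun p hp j hj => (g1 K (Nat.lt_succ_self K) j hj).1 p hp) hK.1 hK.2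
          (fun j hj => (g1 K (Nat.lt_succ_self K) j hj).2) hϑ0 hϑ1
        refine le_trans (pr_mono fun T1 hT1 h => ?_) (h1.trans ?_)
        · obtain ⟨-, -, h2⟩ := h
          have e3 : ∀ j ∈ I, wt y a lam s ℓ (K + 1) j (T0 ∪ T1) =
              if |lam * ∑ p ∈ Pb (y K) (y (K + 1)), sg T1 p * a K p j T0 - ℓ K| ≤ s then
                wt y a lam s ℓ K j T0 * ∏ p ∈ Pb (y K) (y (K + 1)), (1 + sg T1 p * (lam * a K p j T0)) else 0 := by
            intro j _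
            have e4 : ∑ p ∈ Pb (y K) (y (K + 1)), sg (T0 ∪ T1) p * a K p j (T0 ∪ T1) =
                ∑ p ∈ Pb (y K) (y (K + 1)), sg T1 p * a K p j T0 :=
              Finset.sum_congr rfl fun p hp => by rw [hsg T1 hT1 p hp, haa T1 hT1 p j]
            have e5 : ∏ p ∈ Pb (y K) (y (K + 1)), (1 + sg (T0 ∪ T1) p * (lam * a K p j (T0 ∪ T1))) =
                ∏ p ∈ Pb (y K) (y (K + 1)), (1 + sg T1 p * (lam * a K p j T0)) :=
              Finset.prod_congr rfl fun p hp => by rw [hsg T1 hT1 p hp, haa T1 hT1 p j]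
            rw [wt, e4, e5, hw T1 hT1 j]
          rw [Finset.sum_congr rfl e3, Finset.sum_congr rfl fun j _ => hw T1 hT1 j] at h2
          exact h2
        · refine add_le_add ?_ le_rfl
          apply div_le_div_of_nonneg_left _ (by positivity) g2
          have := hA K
          have := hK.1
          positivity
      · refine le_trans (pr_false _ fun T1 hT1 h => hgood ⟨?_, ?_⟩).le hnn
        · intro b hb j hj
          exact (hcn T1 hT1 b hb j).1 (h.1 b hb j hj)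
        · have h2 := h.2.1
          rw [Finset.sum_congr rfl fun j _ => hw T1 hT1 j] at h2
          exact h2

end

end Pool.Agent.Helper51.EA
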