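import Pool.Agent.Helper51.EA.Iter
import Pool.Agent.Helper5.RS.DDs

/-!
# Project EA, block E11, part 2a: the block boundaries, the grid, small facts
-/

set_option autoImplicit false

namespace Pool.Agent.Helper51.EA

open Finset Pool.Agent.Helper5.RM Pool.Agent.Helper5.RS

/-! ### The block boundaries -/

lemma uu_succ (c η : ℝ) (K b : ℕ) : uu c η K (b + 1) = (1 + η) * uu c η K b := by
  unfold uu; rw [pow_succ]; ring

lemma uu_K {c η : ℝ} (hη : 0 < η) (K : ℕ) : uu c η K K = 1 - c := by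
  unfold uu
  have : (1 + η) ^ K ≠ 0 := by positivity
  field_simp

lemma uu_nonneg {c η : ℝ} (hc : c < 1) (hη : 0 < η) (K b : ℕ) : 0 ≤ uu c η K b := by
  unfold uu
  have : 0 < 1 - c := by linarith
  positivity

lemma uu_mono {c η : ℝ} (hc : c < 1) (hη : 0 < η) (K : ℕ) : Monotone (uu c η K) := by
  refine monotone_nat_of_le_succ fun b => ?_
  rw [uu_succ]
  nlinarith [uu_nonneg hc hη K b]

lemma yb_mono {c η : ℝ} (hc : c < 1) (hη : 0 < η) (K : ℕ) {N : ℕ} (hN : 1 ≤ N) : Monotone (yb N c η K) := by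
  intro b b' hb
  unfold yb
  exact Nat.floor_mono (Real.rpow_le_rpow_of_exponent_le (by exact_mod_cast hN) (uu_mono hc hη K hb))

lemma yb_le (N : ℕ) (c η : ℝ) (K b : ℕ) : (yb N c η K b : ℝ) ≤ (N : ℝ) ^ uu c η K b := by
  unfold yb
  exact Nat.floor_le (by positivity)

lemma yb_ge {c η : ℝ} (hc : c < 1) (hη : 0 < η) {N : ℕ} (hN : 1 ≤ N) (K b : ℕ) :
    (N : ℝ) ^ uu c η K b / 2 ≤ yb N c η K b := by
  have h1 : (1 : ℝ) ≤ (N : ℝ) ^ uu c η K b := Real.one_le_rpow (by exact_mod_cast hN) (uu_nonneg hc hη K b)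
  have h2 : (N : ℝ) ^ uu c η K b < yb N c η K b + 1 := by
    unfold yb
    exact Nat.lt_floor_add_one _
  have h3 : 1 ≤ yb N c η K b := by
    unfold yb
    exact (Nat.one_le_floor_iff _).2 h1
  have h4 : (1 : ℝ) ≤ yb N c η K b := by exact_mod_cast h3
  linarith

lemma yb_one {c η : ℝ} (hc : c < 1) (hη : 0 < η) {N : ℕ} (hN : 1 ≤ N) (K b : ℕ) : 1 ≤ yb N c η K b := by
  have h1 : (1 : ℝ) ≤ (N : ℝ) ^ uu c η K b := Real.one_le_rpow (by exact_mod_cast hN) (uu_nonneg hc hη K b)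
  unfold yb
  exact (Nat.one_le_floor_iff _).2 h1

lemma yb_le_N {c η : ℝ} (hc0 : 0 < c) (hc : c < 1) (hη : 0 < η) {N : ℕ} (hN : 1 ≤ N) {K b : ℕ} (hb : b ≤ K) :
    yb N c η K b ≤ N := by
  have h1 : (yb N c η K b : ℝ) ≤ (N : ℝ) := by
    refine (yb_le N c η K b).trans ?_
    calc (N : ℝ) ^ uu c η K b ≤ (N : ℝ) ^ (1 : ℝ) := by
          refine Real.rpow_le_rpow_of_exponent_le (by exact_mod_cast hN) ?_
          have := uu_mono hc hη K hb
          rw [uu_K hη] at this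
          linarith
      _ = N := Real.rpow_one _
  exact_mod_cast h1

lemma exists_K {c u η : ℝ} (hc1 : c < 1 / 2) (hu : 0 < u) (hu1 : u < 1 / 2) (hη : 0 < η) (hη1 : η ≤ 1) :
    ∃ K : ℕ, 1 ≤ K ∧ u / 2 ≤ uu c η K 0 ∧ uu c η K 0 ≤ u := by
  have hex : ∃ K : ℕ, uu c η K 0 ≤ u := by
    obtain ⟨n, hn⟩ := pow_unbounded_of_one_lt ((1 - c) / u) (by linarith : (1 : ℝ) < 1 + η)
    refine ⟨n, ?_⟩
    unfold uu
    rw [pow_zero, mul_one, div_le_iff₀ (by positivity)]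
    rw [div_lt_iff₀ hu] at hn
    nlinarith
  classical
  have h1 := Nat.find_spec hex
  set K := Nat.find hex with hK
  have hK1 : 1 ≤ K := by
    by_contra hcon
    have h0 : K = 0 := by omega
    rw [h0] at h1
    unfold uu at h1
    simp at h1
    linarith
  refine ⟨K, hK1, ?_, h1⟩
  have h2 : ¬ (uu c η (K - 1) 0 ≤ u) := Nat.find_min hex (by omega)
  rw [not_le] at h2
  have h3 : uu c η (K - 1) 0 = (1 + η) * uu c η K 0 := by
    unfold uu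
    obtain ⟨m, hm⟩ : ∃ m, K = m + 1 := ⟨K - 1, by omega⟩
    rw [hm, Nat.add_sub_cancel, pow_succ]
    have : (1 + η) ≠ 0 := by positivity
    have : (1 + η) ^ m ≠ 0 := by positivity
    field_simp
  rw [h3] at h2
  have h4 : 0 ≤ uu c η K 0 := uu_nonneg (by linarith) hη K 0
  nlinarith

/-! ### Eventually small quantities -/

lemma ev_small (C a : ℝ) (ha : 0 < a) : ∃ N0 : ℕ, ∀ N : ℕ, N0 ≤ N → C * (1 + Real.log N) * (N : ℝ) ^ (-a) ≤ 1 := by
  have h1 : Filter.Tendsto (fun x : ℝ => Real.log x / x ^ a) Filter.atTop (nhds 0) :=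
    (isLittleO_log_rpow_atTop ha).tendsto_div_nhds_zero
  have h2 : Filter.Tendsto (fun x : ℝ => x ^ (-a)) Filter.atTop (nhds 0) := tendsto_rpow_neg_atTop ha
  have h3 : Filter.Tendsto (fun x : ℝ => C * (x ^ (-a) + Real.log x / x ^ a)) Filter.atTop (nhds (C * (0 + 0))) :=
    (h2.add h1).const_mul C
  have h4 := h3.comp tendsto_natCast_atTop_atTop
  rw [add_zero, mul_zero] at h4
  have h5 := h4.eventually (ge_mem_nhds (show (0 : ℝ) < 1 by norm_num))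
  obtain ⟨N0, hN0⟩ := Filter.eventually_atTop.1 h5
  refine ⟨N0, fun N hN => ?_⟩
  have h6 := hN0 N hN
  simp only [Function.comp] at h6
  refine le_trans (le_of_eq ?_) h6
  rw [Real.rpow_neg (Nat.cast_nonneg N)]
  ring

/-! ### The grid -/

/-- the grid points of large complexity -/
noncomputable def IG (N : ℕ) (κ : ℝ) : Finset ℕ :=
  (range (4 * N)).filter (fun j => 4 * (N : ℝ) ^ κ ≤ DD (4 * N) ((j : ℝ) / (4 * N : ℕ)))

lemma IG_card {N : ℕ} (hN : 576 ≤ N) : 2 * (N : ℝ) ≤ (IG N (1 / 4)).card := by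
  have hN0 : (0 : ℝ) < N := by exact_mod_cast (by omega : 0 < N)
  have hN1 : (1 : ℝ) ≤ N := by exact_mod_cast (by omega : 1 ≤ N)
  set Y : ℝ := 4 * (N : ℝ) ^ (1 / 4 : ℝ) with hY
  have hY1 : 1 ≤ Y := by
    have := Real.one_le_rpow hN1 (show (0 : ℝ) ≤ 1 / 4 by norm_num)
    linarith
  have h1 := DD_count (4 * N) (by omega) Y hY1
  have h2 : (IG N (1 / 4)).card + ((range (4 * N)).filter (fun j : ℕ => DD (4 * N) ((j : ℝ) / (4 * N : ℕ)) < Y)).card =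
      4 * N := by
    have h3 := Finset.card_filter_add_card_filter_not (s := range (4 * N))
      (fun j : ℕ => Y ≤ DD (4 * N) ((j : ℝ) / (4 * N : ℕ)))
    simp only [not_le, card_range] at h3
    exact h3
  have h3 : ((IG N (1 / 4)).card : ℝ) + (((range (4 * N)).filter (fun j : ℕ => DD (4 * N) ((j : ℝ) / (4 * N : ℕ)) < Y)).card : ℝ) =
      4 * N := by exact_mod_cast h2
  have h4 : 3 * Y ^ 2 ≤ 2 * N := by
    have h5 : ((N : ℝ) ^ (1 / 4 : ℝ)) ^ 2 = (N : ℝ) ^ (1 / 2 : ℝ) := by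
      rw [← Real.rpow_natCast, ← Real.rpow_mul hN0.le]; norm_num
    have h6 : (24 : ℝ) ≤ (N : ℝ) ^ (1 / 2 : ℝ) := by
      rw [← Real.sqrt_eq_rpow]
      refine Real.le_sqrt_of_sq_le ?_
      norm_num
      exact_mod_cast hN
    have h7 : (N : ℝ) ^ (1 / 2 : ℝ) * (N : ℝ) ^ (1 / 2 : ℝ) = N := by
      rw [← Real.rpow_add hN0]; norm_num
    have h8 : 3 * Y ^ 2 = 48 * (N : ℝ) ^ (1 / 2 : ℝ) := by
      rw [hY, mul_pow, h5]; ring
    rw [h8]
    nlinarith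
  linarith

lemma IG_far {N : ℕ} (hN : 1 ≤ N) {κ : ℝ} {j : ℕ} (hj : j ∈ IG N κ) :
    Far N ((j : ℝ) / (4 * N : ℕ)) (DD (4 * N) ((j : ℝ) / (4 * N : ℕ)) / 4) ∧
      (N : ℝ) ^ κ ≤ DD (4 * N) ((j : ℝ) / (4 * N : ℕ)) / 4 ∧ DD (4 * N) ((j : ℝ) / (4 * N : ℕ)) / 4 ≤ N := by
  unfold IG at hj
  rw [mem_filter] at hj
  refine ⟨?_, by linarith [hj.2], ?_⟩
  · intro m hm
    have h1 := DD_far (4 * N) (by omega) j m hm
    push_cast at h1 ⊢
    have h2 : (0 : ℝ) ≤ m := Nat.cast_nonneg m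
    linarith
  · have h1 := DD_le (4 * N) (by omega) j
    push_cast at h1 ⊢
    linarith

lemma IG_sum {N : ℕ} (hN : 1 ≤ N) :
    ∑ j ∈ IG N (1 / 4), (DD (4 * N) ((j : ℝ) / (4 * N : ℕ)) / 4) ^ (-(9 / 4) : ℝ) ≤ 3000 * (N : ℝ) ^ (-(1 / 32) : ℝ) := by
  have hN0 : (0 : ℝ) < N := by exact_mod_cast (by omega : 0 < N)
  have hN1 : (1 : ℝ) ≤ N := by exact_mod_cast (by omega : 1 ≤ N)
  have hk : (1 : ℝ) ≤ (N : ℝ) ^ (1 / 4 : ℝ) := Real.one_le_rpow hN1 (by norm_num)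
  have h1 := DD_sum2 (4 * N) (by omega) (4 * (N : ℝ) ^ (1 / 4 : ℝ)) (by linarith)
  have h2 : ∀ j ∈ IG N (1 / 4), (DD (4 * N) ((j : ℝ) / (4 * N : ℕ)) / 4) ^ (-(9 / 4) : ℝ) ≤
      20 * (DD (4 * N) ((j : ℝ) / (4 * N : ℕ))) ^ (-(17 / 8) : ℝ) := by
    intro j hj
    obtain ⟨-, h3, -⟩ := IG_far hN hj
    set D := DD (4 * N) ((j : ℝ) / (4 * N : ℕ)) with hD
    have h4 : 1 ≤ D / 4 := hk.trans h3
    have h5 : (D / 4) ^ (-(9 / 4) : ℝ) ≤ (D / 4) ^ (-(17 / 8) : ℝ) :=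
      Real.rpow_le_rpow_of_exponent_le h4 (by norm_num)
    refine h5.trans ?_
    have hD0 : 0 < D := by linarith
    rw [Real.div_rpow hD0.le (by norm_num)]
    have h6 : (1 : ℝ) / 20 ≤ (4 : ℝ) ^ (-(17 / 8) : ℝ) := by
      rw [Real.rpow_neg (by norm_num), one_div]
      refine inv_anti₀ (by positivity) ?_
      have h7 : (4 : ℝ) ^ (17 / 8 : ℝ) = ((4 : ℝ) ^ 17) ^ (1 / 8 : ℝ) := by
        rw [← Real.rpow_natCast, ← Real.rpow_mul (by norm_num)]; norm_num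
      rw [h7]
      have h8 : (20 : ℝ) = ((20 : ℝ) ^ 8) ^ (1 / 8 : ℝ) := by
        rw [← Real.rpow_natCast, ← Real.rpow_mul (by norm_num)]; norm_num
      rw [h8]
      exact Real.rpow_le_rpow (by positivity) (by norm_num) (by norm_num)
    have h9 : 0 ≤ D ^ (-(17 / 8) : ℝ) := Real.rpow_nonneg hD0.le _
    rw [div_le_iff₀ (by positivity)]
    nlinarith
  refine (Finset.sum_le_sum h2).trans ?_
  rw [← Finset.mul_sum]
  have h3 : (4 * (N : ℝ) ^ (1 / 4 : ℝ)) ^ (-(1 / 8) : ℝ) ≤ (N : ℝ) ^ (-(1 / 32) : ℝ) := by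
    rw [Real.mul_rpow (by norm_num) (by positivity), ← Real.rpow_mul hN0.le]
    have h4 : (4 : ℝ) ^ (-(1 / 8) : ℝ) ≤ 1 := Real.rpow_le_one_of_one_le_of_nonpos (by norm_num) (by norm_num)
    have h5 : (1 / 4 * -(1 / 8) : ℝ) = -(1 / 32) := by norm_num
    rw [h5]
    have h6 : 0 ≤ (N : ℝ) ^ (-(1 / 32) : ℝ) := by positivity
    nlinarith
  unfold IG
  nlinarith

end Pool.Agent.Helper51.EA
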