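import Pool.Agent.Helper51.EA.OneA

/-!
# Project EA, block E11, part 2b: numerics
-/

set_option autoImplicit false

namespace Pool.Agent.Helper51.EA

open Finset Pool.Agent.Helper5.RM Pool.Agent.Helper5.RS

def OrthStmt : Prop := ∀ (N y J : ℕ) (_ : 2 * N < J) (T : Finset ℕ) (p p' : ℕ) (_ : p.Prime) (_ : p'.Prime)
    (_ : y < p) (_ : y < p') (_ : p ≠ p'),
    ∑ j ∈ range J, (XG N (Sy N y) ((j : ℝ) / J) p T).re * (XG N (Sy N y) ((j : ℝ) / J) p' T).re = 0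

def NormStmt : Prop := ∀ (N J : ℕ) (_ : 2 * N < J) (A T : Finset ℕ) (p : ℕ) (_ : 1 ≤ p),
    ∑ j ∈ range J, (XG N A ((j : ℝ) / J) p T).re ^ 2 ≤ J * ((N / p : ℕ) : ℝ)

def PbInvStmt : Prop := ∃ C : ℝ, 0 < C ∧ ∀ y y' : ℕ, 2 ≤ y → y ≤ y' →
    ∑ p ∈ Pb y y', (1 : ℝ) / p ≤ (Real.log ((y' : ℝ) / y) + C) / Real.log y

def SmoothStmt : Prop := ∃ C : ℝ, 0 < C ∧ ∀ N y : ℕ, 2 ≤ N → 1 ≤ y → y ≤ N →
    ((((Icc 1 N).filter (fun n => Squarefree n ∧ ∀ q ∈ n.primeFactors, q ≤ y)).card : ℕ) : ℝ) ≤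
      6 / Real.pi ^ 2 * N * (Real.log y / Real.log N) + C * N / Real.log N

def VbLeStmt : Prop := ∀ (N : ℕ) (y : ℕ → ℕ) (_ : Monotone y) (B : ℕ),
    ∑ b ∈ range B, 2 * vb N y b ≤
      (((Icc 1 N).filter (fun n => Squarefree n ∧ ∀ q ∈ n.primeFactors, q ≤ y B)).card : ℝ)

def VbGeStmt : Prop := ∀ (ε : ℝ) (_ : 0 < ε), ∃ c0 u0 : ℝ, 0 < c0 ∧ c0 < 1 / 2 ∧ 0 < u0 ∧ u0 < 1 / 2 ∧
    ∀ c u : ℝ, 0 < c → c ≤ c0 → 0 < u → u ≤ u0 →
    ∃ η0 : ℝ, 0 < η0 ∧ ∀ (η : ℝ) (K : ℕ), 0 < η → η ≤ η0 → u / 2 ≤ uu c η K 0 → uu c η K 0 ≤ u →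
    ∃ N0 : ℕ, ∀ N : ℕ, N0 ≤ N → (6 / Real.pi ^ 2 - ε) * N ≤ ∑ b ∈ range K, 2 * vb N (yb N c η K) b

def RestStmt : Prop := ∀ (κ δ : ℝ) (_ : 0 < κ) (_ : 0 < δ), ∃ c0 u0 : ℝ, 0 < c0 ∧ c0 < 1 / 2 ∧ 0 < u0 ∧ u0 < 1 / 2 ∧
    ∀ c u : ℝ, 0 < c → c ≤ c0 → 0 < u → u ≤ u0 →
    ∃ η0 : ℝ, 0 < η0 ∧ ∀ (η : ℝ) (K : ℕ), 0 < η → η ≤ η0 → u / 2 ≤ uu c η K 0 → uu c η K 0 ≤ u →
    ∃ N0 : ℕ, ∀ N : ℕ, N0 ≤ N → ∀ θ D : ℝ, Far N θ D → (N : ℝ) ^ κ ≤ D → D ≤ N →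
    pr (PP N) (fun T => δ * tg N < ‖SN N T θ - Mn N (yb N c η K) K θ T‖) ≤ D ^ (-(9 / 4) : ℝ) + (N : ℝ) ^ (-(2 : ℝ))

def CondStmt : Prop := ∀ (κ c η : ℝ) (K : ℕ) (_ : 0 < κ) (_ : 0 < c) (_ : c < 1 / 2) (_ : 0 < η),
    ∃ (β : ℝ) (N0 : ℕ), 0 < β ∧ ∀ N : ℕ, N0 ≤ N → ∀ θ D : ℝ, Far N θ D → (N : ℝ) ^ κ ≤ D → D ≤ N → ∀ b < K,
    pr (PP N) (fun T => (∃ p ∈ Pb (yb N c η K b) (yb N c η K (b + 1)),
        (N : ℝ) ^ (1 / 2 - β) < |(XG N (Sy N (yb N c η K b)) θ p T).re|) ∨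
      (N : ℝ) ^ (1 - β) < |∑ p ∈ Pb (yb N c η K b) (yb N c η K (b + 1)), (XG N (Sy N (yb N c η K b)) θ p T).re ^ 2 -
        vb N (yb N c η K) b|) ≤ (N : ℝ) ^ (-(4 : ℝ))

/-- the parameter `lam` -/
noncomputable def lm (δ : ℝ) (N : ℕ) : ℝ := (1 - δ) * tg N * Real.pi ^ 2 / (3 * N)

lemma tg_nonneg (N : ℕ) : 0 ≤ tg N := Real.sqrt_nonneg _

lemma tg_sq {N : ℕ} (hN : 1 ≤ N) : tg N ^ 2 = 6 / Real.pi ^ 2 * (N * Real.log N) := by
  unfold tg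
  have : 0 ≤ Real.log N := Real.log_nonneg (by exact_mod_cast hN)
  rw [Real.sq_sqrt (by positivity)]

lemma tg_pos {N : ℕ} (hN : 2 ≤ N) : 0 < tg N := by
  unfold tg
  have h1 : 0 < Real.log N := Real.log_pos (by exact_mod_cast (by omega : 1 < N))
  have h2 : (0 : ℝ) < N := by exact_mod_cast (by omega : 0 < N)
  have := Real.pi_pos
  exact Real.sqrt_pos.2 (by positivity)

lemma lm_pos {δ : ℝ} (hδ : δ < 1) {N : ℕ} (hN : 2 ≤ N) : 0 < lm δ N := by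
  unfold lm
  have h1 := tg_pos hN
  have h2 : (0 : ℝ) < N := by exact_mod_cast (by omega : 0 < N)
  have h3 : 0 < 1 - δ := by linarith
  have := Real.pi_pos
  positivity

lemma lm_sq (δ : ℝ) {N : ℕ} (hN : 1 ≤ N) : lm δ N ^ 2 = (1 - δ) ^ 2 * (2 * Real.pi ^ 2 / 3) * Real.log N / N := by
  unfold lm
  have h2 : (0 : ℝ) < N := by exact_mod_cast (by omega : 0 < N)
  have h3 := Real.pi_pos
  rw [div_pow, mul_pow, mul_pow, tg_sq hN]
  field_simp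
  ring

lemma pi_sq_lt : Real.pi ^ 2 < 10 := by
  have h1 := Real.pi_lt_d2
  have h2 := Real.pi_pos
  nlinarith

lemma lm_sq_le {δ : ℝ} (hδ0 : 0 ≤ δ) (hδ : δ ≤ 1) {N : ℕ} (hN : 1 ≤ N) : lm δ N ^ 2 ≤ 7 * Real.log N / N := by
  rw [lm_sq δ hN]
  have h2 : (0 : ℝ) < N := by exact_mod_cast (by omega : 0 < N)
  have h3 : 0 ≤ Real.log N := Real.log_nonneg (by exact_mod_cast hN)
  have h4 := pi_sq_lt
  have h5 : (1 - δ) ^ 2 ≤ 1 := by nlinarith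
  have h6 : 0 ≤ (1 - δ) ^ 2 := by positivity
  have h7 : (1 - δ) ^ 2 * (2 * Real.pi ^ 2 / 3) ≤ 7 := by nlinarith
  gcongr

/-- the sum of the `ℓ` up to a boundary -/
lemma ell_sum (hsm : SmoothStmt) (hvle : VbLeStmt) : ∃ C : ℝ, 0 < C ∧ ∀ (δ c η : ℝ) (K N b : ℕ), 0 ≤ δ → δ ≤ 1 → 0 < c → c < 1 →
    0 < η → 2 ≤ N → b ≤ K →
    ∑ b' ∈ range b, lm δ N ^ 2 * vb N (yb N c η K) b' ≤ 2 * (1 - δ) ^ 2 * uu c η K b * Real.log N + C := by
  obtain ⟨C, hC, h⟩ := hsm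
  refine ⟨4 * C, by positivity, fun δ c η K N b hδ0 hδ1 hc0 hc1 hη hN hb => ?_⟩
  have hN1 : 1 ≤ N := by omega
  have hN0 : (0 : ℝ) < N := by exact_mod_cast (by omega : 0 < N)
  have hL : 0 < Real.log N := Real.log_pos (by exact_mod_cast (by omega : 1 < N))
  have h1 := hvle N (yb N c η K) (yb_mono hc1 hη K hN1) b
  have h2 := h N (yb N c η K b) hN (yb_one hc1 hη hN1 K b) (yb_le_N hc0 hc1 hη hN1 hb)
  have h3 : Real.log (yb N c η K b) ≤ uu c η K b * Real.log N := by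
    rw [← Real.log_rpow hN0]
    refine Real.log_le_log (by exact_mod_cast yb_one hc1 hη hN1 K b) (yb_le N c η K b)
  rw [← Finset.mul_sum] at h1 ⊢
  have h4 : ∑ b' ∈ range b, vb N (yb N c η K) b' ≤
      (6 / Real.pi ^ 2 * N * (Real.log (yb N c η K b) / Real.log N) + C * N / Real.log N) / 2 := by
    linarith [h1.trans h2]
  have h5 : (6 / Real.pi ^ 2 * N * (Real.log (yb N c η K b) / Real.log N) + C * N / Real.log N) / 2 ≤
      (6 / Real.pi ^ 2 * N * (uu c η K b * Real.log N / Real.log N) + C * N / Real.log N) / 2 := by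
    gcongr
  rw [lm_sq δ hN1]
  have h6 : 0 ≤ (1 - δ) ^ 2 * (2 * Real.pi ^ 2 / 3) * Real.log N / N := by positivity
  refine (mul_le_mul_of_nonneg_left (h4.trans h5) h6).trans ?_
  have h7 := Real.pi_pos
  have h8 : (1 - δ) ^ 2 * (2 * Real.pi ^ 2 / 3) * Real.log N / N *
      ((6 / Real.pi ^ 2 * N * (uu c η K b * Real.log N / Real.log N) + C * N / Real.log N) / 2) =
      2 * (1 - δ) ^ 2 * uu c η K b * Real.log N + (1 - δ) ^ 2 * (Real.pi ^ 2 / 3) * C := by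
    field_simp
    ring
  rw [h8]
  have h9 := pi_sq_lt
  have h10 : (1 - δ) ^ 2 ≤ 1 := by nlinarith
  have h11 : 0 ≤ (1 - δ) ^ 2 := by positivity
  have h12 : (1 - δ) ^ 2 * (Real.pi ^ 2 / 3) ≤ 4 := by nlinarith
  nlinarith

lemma MG_card_le (N : ℕ) (A : Finset ℕ) (p : ℕ) : ((MG N A p).card : ℝ) ≤ N * (1 / (p : ℝ)) := by
  have h1 : (MG N A p).card ≤ N / p := by
    unfold MG
    refine (card_filter_le _ _).trans ?_
    simp
  have h2 : ((N / p : ℕ) : ℝ) ≤ (N : ℝ) / p := Nat.cast_div_le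
  have h3 : ((MG N A p).card : ℝ) ≤ ((N / p : ℕ) : ℝ) := by exact_mod_cast h1
  rw [mul_one_div]
  exact h3.trans h2

lemma vb_nonneg (N : ℕ) (y : ℕ → ℕ) (b : ℕ) : 0 ≤ vb N y b := by
  unfold vb
  exact div_nonneg (Finset.sum_nonneg fun _ _ => Nat.cast_nonneg _) (by norm_num)

/-- one `ℓ` -/
lemma ell_one (hpb : PbInvStmt) (u : ℝ) (hu : 0 < u) : ∃ C : ℝ, 0 < C ∧ ∃ N0 : ℕ, ∀ N : ℕ, N0 ≤ N →
    ∀ (δ c η : ℝ) (K b : ℕ), 0 ≤ δ → δ ≤ 1 → 0 < c → c < 1 → 0 < η → u / 2 ≤ uu c η K 0 →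
    lm δ N ^ 2 * vb N (yb N c η K) b ≤ 7 * η * Real.log N + C := by
  obtain ⟨C, hC, h⟩ := hpb
  obtain ⟨N1, hN1⟩ := ev_small 4 (u / 2) (by positivity)
  refine ⟨14 * (1 + C) / u, by positivity, max N1 3, fun N hN δ c η K b hδ0 hδ1 hc0 hc1 hη hu0 => ?_⟩
  have hNN : 3 ≤ N := (le_max_right _ _).trans hN
  have hN2 : 1 ≤ N := by omega
  have hN0 : (0 : ℝ) < N := by exact_mod_cast (by omega : 0 < N)
  have hL : 0 < Real.log N := Real.log_pos (by exact_mod_cast (by omega : 1 < N))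
  have hub : u / 2 ≤ uu c η K b := hu0.trans (uu_mono hc1 hη K (Nat.zero_le b))
  have hNu : (4 : ℝ) ≤ (N : ℝ) ^ uu c η K b := by
    have h1 := hN1 N ((le_max_left _ _).trans hN)
    have h2 : (N : ℝ) ^ (-(u / 2)) = ((N : ℝ) ^ (u / 2))⁻¹ := Real.rpow_neg hN0.le _
    have h3 : 0 < (N : ℝ) ^ (u / 2) := by positivity
    rw [h2, ← div_eq_mul_inv, div_le_one h3] at h1
    have h4 : (N : ℝ) ^ (u / 2) ≤ (N : ℝ) ^ uu c η K b :=
      Real.rpow_le_rpow_of_exponent_le (by exact_mod_cast hN2) hub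
    nlinarith
  set y := yb N c η K b with hy
  set y' := yb N c η K (b + 1) with hy'
  set U := uu c η K b with hU
  have hyl : (N : ℝ) ^ U / 2 ≤ y := yb_ge hc1 hη hN2 K b
  have hy2 : 2 ≤ y := by
    have : (2 : ℝ) ≤ y := by linarith
    exact_mod_cast this
  have hy0 : (0 : ℝ) < y := by exact_mod_cast (by omega : 0 < y)
  have hyy : y ≤ y' := yb_mono hc1 hη K hN2 (Nat.le_succ b)
  have h1 := h y y' hy2 hyy
  have h2 : vb N (yb N c η K) b ≤ N * (∑ p ∈ Pb y y', (1 : ℝ) / p) / 2 := by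
    unfold vb
    rw [Finset.mul_sum]
    refine div_le_div_of_nonneg_right (Finset.sum_le_sum fun p hp => ?_) (by norm_num)
    exact MG_card_le N _ p
  have hULpos : 0 < U * Real.log N := by
    have : 0 < U := by linarith [hub, hu]
    positivity
  have hlog4 : 2 * Real.log 2 ≤ U * Real.log N := by
    have h3 : Real.log 4 ≤ Real.log ((N : ℝ) ^ U) := Real.log_le_log (by norm_num) hNu
    rw [Real.log_rpow hN0] at h3
    have h4 : Real.log 4 = 2 * Real.log 2 := by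
      rw [show (4 : ℝ) = 2 ^ 2 by norm_num, Real.log_pow]; norm_num
    linarith
  have hlogy : U * Real.log N / 2 ≤ Real.log y := by
    have h3 : Real.log ((N : ℝ) ^ U / 2) ≤ Real.log y := Real.log_le_log (by positivity) hyl
    rw [Real.log_div (by positivity) (by norm_num), Real.log_rpow hN0] at h3
    linarith
  have hlogr : Real.log ((y' : ℝ) / y) ≤ η * (U * Real.log N) + 1 := by
    have h3 : (y' : ℝ) / y ≤ 2 * (N : ℝ) ^ (η * U) := by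
      rw [div_le_iff₀ hy0]
      have h4 : (y' : ℝ) ≤ (N : ℝ) ^ uu c η K (b + 1) := yb_le N c η K (b + 1)
      rw [uu_succ, ← hU] at h4
      have h5 : (N : ℝ) ^ ((1 + η) * U) = (N : ℝ) ^ (η * U) * (N : ℝ) ^ U := by
        rw [← Real.rpow_add hN0]; ring_nf
      rw [h5] at h4
      have h6 : 0 < (N : ℝ) ^ (η * U) := by positivity
      nlinarith
    have h4 : 0 < (y' : ℝ) / y := by
      have : (0 : ℝ) < y' := by exact_mod_cast (by omega : 0 < y')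
      positivity
    have h5 := Real.log_le_log h4 h3
    rw [Real.log_mul (by norm_num) (by positivity), Real.log_rpow hN0] at h5
    have h6 := Real.log_two_lt_d9
    linarith
  have hsum : ∑ p ∈ Pb y y', (1 : ℝ) / p ≤ 2 * η + 4 * (1 + C) / (u * Real.log N) := by
    refine h1.trans ?_
    have hlogy0 : 0 < Real.log y := by linarith
    rw [div_le_iff₀ hlogy0]
    have h3 : (2 * η + 4 * (1 + C) / (u * Real.log N)) * (U * Real.log N / 2) ≤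
        (2 * η + 4 * (1 + C) / (u * Real.log N)) * Real.log y := mul_le_mul_of_nonneg_left hlogy (by positivity)
    have h4 : (2 * η + 4 * (1 + C) / (u * Real.log N)) * (U * Real.log N / 2) =
        η * (U * Real.log N) + 2 * (1 + C) * (U / u) := by
      field_simp
      ring
    have h5 : 1 / 2 ≤ U / u := by rw [div_le_div_iff₀ (by norm_num) hu]; linarith
    have h6 : 1 + C ≤ 2 * (1 + C) * (U / u) := by nlinarith
    linarith
  have hvb : vb N (yb N c η K) b ≤ N * (η + 2 * (1 + C) / (u * Real.log N)) := by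
    refine h2.trans ?_
    have h3 : (N : ℝ) * (∑ p ∈ Pb y y', (1 : ℝ) / p) / 2 ≤ N * (2 * η + 4 * (1 + C) / (u * Real.log N)) / 2 := by
      gcongr
    refine h3.trans (le_of_eq ?_)
    ring
  have h0 : 0 ≤ lm δ N ^ 2 := by positivity
  have hvb0 : 0 ≤ vb N (yb N c η K) b := vb_nonneg N _ b
  calc lm δ N ^ 2 * vb N (yb N c η K) b ≤ (7 * Real.log N / N) * (N * (η + 2 * (1 + C) / (u * Real.log N))) :=
        mul_le_mul (lm_sq_le hδ0 hδ1 hN2) hvb hvb0 (by positivity)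
    _ = 7 * η * Real.log N + 14 * (1 + C) / u := by
        field_simp
        ring

end Pool.Agent.Helper51.EA
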