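import Pool.Agent.Helper51.EA.OneC
import Pool.Agent.Helper51.EA.Defs2

/-!
# Project EA, block T6: `one_NR` (level, direction, interval), count of the thick grid points
-/

set_option autoImplicit false

namespace Pool.Agent.Helper51.EA

open Finset Pool.Agent.Helper5.RM Pool.Agent.Helper5.RS

def OrthWStmt : Prop := ∀ (N y J : ℕ) (_ : 2 * N < J) (ω : ℂ) (T : Finset ℕ) (p p' : ℕ) (_ : p.Prime) (_ : p'.Prime)
    (_ : y < p) (_ : y < p') (_ : p ≠ p'),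
    ∑ j ∈ range J, (ω * XG N (Sy N y) ((j : ℝ) / J) p T).re * (ω * XG N (Sy N y) ((j : ℝ) / J) p' T).re = 0

def NormWStmt : Prop := ∀ (N J : ℕ) (_ : 2 * N < J) (ω : ℂ) (_ : ‖ω‖ = 1) (A T : Finset ℕ) (p : ℕ) (_ : 1 ≤ p),
    ∑ j ∈ range J, (ω * XG N A ((j : ℝ) / J) p T).re ^ 2 ≤ J * ((N / p : ℕ) : ℝ)

def CondWStmt : Prop := ∀ (κ c η : ℝ) (K : ℕ) (_ : 0 < κ) (_ : 0 < c) (_ : c < 1 / 2) (_ : 0 < η),
    ∃ (β : ℝ) (N0 : ℕ), 0 < β ∧ ∀ N : ℕ, N0 ≤ N → ∀ θ D : ℝ, Far N θ D → (N : ℝ) ^ κ ≤ D → D ≤ N → ∀ b < K,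
    ∀ ω : ℂ, ‖ω‖ = 1 →
    pr (PP N) (fun T => (∃ p ∈ Pb (yb N c η K b) (yb N c η K (b + 1)),
        (N : ℝ) ^ (1 / 2 - β) < |(ω * XG N (Sy N (yb N c η K b)) θ p T).re|) ∨
      (N : ℝ) ^ (1 - β) < |∑ p ∈ Pb (yb N c η K b) (yb N c η K (b + 1)), (ω * XG N (Sy N (yb N c η K b)) θ p T).re ^ 2 -
        vb N (yb N c η K) b|) ≤ (N : ℝ) ^ (-(4 : ℝ))

/-- the real parts at the grid points, with a direction -/
noncomputable def aw (N : ℕ) (ω : ℂ) (y : ℕ → ℕ) (b p j : ℕ) (T : Finset ℕ) : ℝ :=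
  (ω * XG N (Sy N (y b)) ((j : ℝ) / (4 * N : ℕ)) p T).re

lemma aw_inter (N : ℕ) (ω : ℂ) (y : ℕ → ℕ) (b p j : ℕ) (T : Finset ℕ) : aw N ω y b p j (T ∩ PP (y b)) = aw N ω y b p j T := by
  unfold aw XG
  congr 2
  refine Finset.sum_congr rfl fun m hm => ?_
  rw [rf_inter]
  intro q hq
  unfold MG at hm
  rw [mem_filter] at hm
  have h1 := hm.2.1
  unfold Sy at h1
  rw [mem_filter] at h1
  rw [mem_PP]
  exact ⟨Nat.prime_of_mem_primeFactors hq, h1.2 q hq⟩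

lemma Mn_reW (N : ℕ) (ω : ℂ) (y : ℕ → ℕ) (K j : ℕ) (T : Finset ℕ) :
    (ω * Mn N y K ((j : ℝ) / (4 * N : ℕ)) T).re =
      ∑ b ∈ range K, ∑ p ∈ Pb (y b) (y (b + 1)), sg T p * aw N ω y b p j T := by
  unfold Mn aw
  rw [Finset.mul_sum, Complex.re_sum]
  refine Finset.sum_congr rfl fun b _ => ?_
  rw [Finset.mul_sum, Complex.re_sum]
  refine Finset.sum_congr rfl fun p _ => ?_
  rw [← mul_assoc, mul_comm ω, mul_assoc, Complex.re_ofReal_mul]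

/-- the conditions of the iteration from the conditions of block D2w -/
lemma cnd_ofW {N : ℕ} (hN : 2 ≤ N) (ω : ℂ) (y : ℕ → ℕ) (δ r β : ℝ) (hδ0 : 0 ≤ δ) (hδ1 : δ < 1) (hr0 : 0 < r) (hr1 : r ≤ 1) (hβ : 0 < β)
    (hs : 7 * (1 + Real.log N) * (N : ℝ) ^ (-(β / 2)) ≤ 1) (b j : ℕ) (T : Finset ℕ)
    (h1 : ∀ p ∈ Pb (y b) (y (b + 1)), |aw N ω y b p j T| ≤ (N : ℝ) ^ (1 / 2 - β))
    (h2 : |∑ p ∈ Pb (y b) (y (b + 1)), aw N ω y b p j T ^ 2 - vb N y b| ≤ (N : ℝ) ^ (1 - β)) :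
    cnd y (aw N ω y) (r * lm δ N) (fun b => (r * lm δ N) ^ 2 * vb N y b) ((N : ℝ) ^ (-(β / 2))) b j T := by
  have hN1 : 1 ≤ N := by omega
  have hN0 : (0 : ℝ) < N := by exact_mod_cast (by omega : 0 < N)
  have hN1' : (1 : ℝ) ≤ N := by exact_mod_cast hN1
  have hL : 0 < Real.log N := Real.log_pos (by exact_mod_cast (by omega : 1 < N))
  have hlam : 0 < r * lm δ N := mul_pos hr0 (lm_pos hδ1 hN)
  have hlam2 : (r * lm δ N) ^ 2 ≤ 7 * Real.log N / N := by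
    rw [mul_pow]
    have h3 := lm_sq_le hδ0 hδ1.le hN1
    have h4 : r ^ 2 ≤ 1 := pow_le_one₀ hr0.le hr1
    have h5 : 0 ≤ lm δ N ^ 2 := by positivity
    exact (mul_le_of_le_one_left h5 h4).trans h3
  set lam := r * lm δ N
  set L := Real.log N
  have hτ : 0 < (N : ℝ) ^ (-(β / 2)) := by positivity
  have hτ1 : (N : ℝ) ^ (-(β / 2)) ≤ 1 := Real.rpow_le_one_of_one_le_of_nonpos hN1' (by linarith)
  have h7 : 7 * L * (N : ℝ) ^ (-(β / 2)) ≤ 1 := by nlinarith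
  refine ⟨fun p hp => ?_, ?_⟩
  · rw [abs_mul, abs_of_pos hlam]
    refine abs_le_of_sq_le_sq' ?_ hτ.le |>.2
    have h3 : |aw N ω y b p j T| ^ 2 ≤ ((N : ℝ) ^ (1 / 2 - β)) ^ 2 := pow_le_pow_left₀ (abs_nonneg _) (h1 p hp) 2
    have h4 : ((N : ℝ) ^ (1 / 2 - β)) ^ 2 = N * ((N : ℝ) ^ (-(β / 2))) ^ 4 := by
      rw [← Real.rpow_natCast, ← Real.rpow_mul hN0.le, ← Real.rpow_natCast, ← Real.rpow_mul hN0.le]
      nth_rewrite 2 [← Real.rpow_one (N : ℝ)]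
      rw [← Real.rpow_add hN0]
      congr 1
      push_cast
      ring
    rw [mul_pow]
    rw [h4] at h3
    calc lam ^ 2 * |aw N ω y b p j T| ^ 2 ≤ (7 * L / N) * (N * ((N : ℝ) ^ (-(β / 2))) ^ 4) :=
          mul_le_mul hlam2 h3 (by positivity) (by positivity)
      _ = (7 * L * (N : ℝ) ^ (-(β / 2))) * ((N : ℝ) ^ (-(β / 2)) * ((N : ℝ) ^ (-(β / 2))) ^ 2) := by
          field_simp
      _ ≤ 1 * (1 * ((N : ℝ) ^ (-(β / 2))) ^ 2) := by gcongr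
      _ = ((N : ℝ) ^ (-(β / 2))) ^ 2 := by ring
  · have h3 : ∑ p ∈ Pb (y b) (y (b + 1)), (lam * aw N ω y b p j T) ^ 2 - lam ^ 2 * vb N y b =
        lam ^ 2 * (∑ p ∈ Pb (y b) (y (b + 1)), aw N ω y b p j T ^ 2 - vb N y b) := by
      rw [mul_sub, Finset.mul_sum]
      congr 1
      exact Finset.sum_congr rfl fun p _ => by ring
    show |∑ p ∈ Pb (y b) (y (b + 1)), (lam * aw N ω y b p j T) ^ 2 - lam ^ 2 * vb N y b| ≤ _
    rw [h3, abs_mul, abs_of_nonneg (by positivity : (0 : ℝ) ≤ lam ^ 2)]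
    have h4 : (N : ℝ) ^ (1 - β) = N * ((N : ℝ) ^ (-(β / 2)) * (N : ℝ) ^ (-(β / 2))) := by
      rw [← Real.rpow_add hN0]
      nth_rewrite 2 [← Real.rpow_one (N : ℝ)]
      rw [← Real.rpow_add hN0]
      congr 1
      ring
    rw [h4] at h2
    calc lam ^ 2 * |∑ p ∈ Pb (y b) (y (b + 1)), aw N ω y b p j T ^ 2 - vb N y b| ≤
          (7 * L / N) * (N * ((N : ℝ) ^ (-(β / 2)) * (N : ℝ) ^ (-(β / 2)))) :=
          mul_le_mul hlam2 h2 (abs_nonneg _) (by positivity)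
      _ = (7 * L * (N : ℝ) ^ (-(β / 2))) * (N : ℝ) ^ (-(β / 2)) := by field_simp
      _ ≤ 1 * (N : ℝ) ^ (-(β / 2)) := by gcongr
      _ = (N : ℝ) ^ (-(β / 2)) := by ring

lemma card_le_cnt {G : ℕ} {P : ℝ → Prop} {I' : Finset ℕ} (h : ∀ j ∈ I', j < G ∧ P ((j : ℝ) / G)) : I'.card ≤ cnt G P := by
  classical
  unfold cnt
  exact card_le_card fun j hj => Finset.mem_filter.2 ⟨mem_range.2 (h j hj).1, (h j hj).2⟩

lemma div_aux51 (X q c w : ℝ) (hw : w ≠ 0) : X / (q * c) = X / (q * (c / w)) / w := by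
  rw [div_div, mul_assoc, div_mul_cancel₀ _ hw]

open Classical in
/-- the grid points of large complexity in `(a, b)` -/
noncomputable def IW (N : ℕ) (a b : ℝ) : Finset ℕ :=
  (IG N (1 / 4)).filter (fun j => a < (j : ℝ) / (4 * N : ℕ) ∧ (j : ℝ) / (4 * N : ℕ) < b)

lemma IW_card {N : ℕ} (hN : 1 ≤ N) (a b : ℝ) (ha : 0 ≤ a) (hb : b ≤ 1)
    (hs : 49 * (N : ℝ) ^ (1 / 2 : ℝ) ≤ 2 * N * (b - a)) : 2 * (N : ℝ) * (b - a) ≤ (IW N a b).card := by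
  classical
  have hN0 : (0 : ℝ) < N := by exact_mod_cast (by omega : 0 < N)
  have hN1 : (1 : ℝ) ≤ N := by exact_mod_cast hN
  have hM0 : (0 : ℝ) < ((4 * N : ℕ) : ℝ) := by exact_mod_cast (by omega : 0 < 4 * N)
  set Y : ℝ := 4 * (N : ℝ) ^ (1 / 4 : ℝ) with hY
  have hk : (1 : ℝ) ≤ (N : ℝ) ^ (1 / 4 : ℝ) := Real.one_le_rpow hN1 (by norm_num)
  have hY1 : 1 ≤ Y := by linarith
  have h1 := DD_count (4 * N) (by omega) Y hY1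
  have h8 : 3 * Y ^ 2 = 48 * (N : ℝ) ^ (1 / 2 : ℝ) := by
    have h5 : ((N : ℝ) ^ (1 / 4 : ℝ)) ^ 2 = (N : ℝ) ^ (1 / 2 : ℝ) := by
      rw [← Real.rpow_natCast, ← Real.rpow_mul hN0.le]; norm_num
    rw [hY, mul_pow, h5]; ring
  rw [h8] at h1
  -- the points of the interval
  have h2 : Finset.Ioo ⌊((4 * N : ℕ) : ℝ) * a⌋₊ ⌈((4 * N : ℕ) : ℝ) * b⌉₊ ⊆
      (IW N a b) ∪ (range (4 * N)).filter (fun j : ℕ => DD (4 * N) ((j : ℝ) / (4 * N : ℕ)) < Y) := by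
    intro j hj
    rw [mem_Ioo] at hj
    have h3 : ((4 * N : ℕ) : ℝ) * a < j := Nat.lt_of_floor_lt hj.1
    have h4 : (j : ℝ) < ((4 * N : ℕ) : ℝ) * b := Nat.lt_ceil.1 hj.2
    have h5 : j < 4 * N := by
      have : (j : ℝ) < ((4 * N : ℕ) : ℝ) := lt_of_lt_of_le h4 (mul_le_of_le_one_right hM0.le hb)
      exact_mod_cast this
    rw [mem_union]
    by_cases h6 : DD (4 * N) ((j : ℝ) / (4 * N : ℕ)) < Y
    · exact Or.inr (mem_filter.2 ⟨mem_range.2 h5, h6⟩)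
    · left
      unfold IW IG
      rw [mem_filter, mem_filter]
      refine ⟨⟨mem_range.2 h5, not_lt.1 h6⟩, ?_, ?_⟩
      · rw [lt_div_iff₀ hM0]; linarith
      · rw [div_lt_iff₀ hM0]; linarith
  have h3 := (card_le_card h2).trans (card_union_le _ _)
  rw [Nat.card_Ioo] at h3
  have h4 : (⌈((4 * N : ℕ) : ℝ) * b⌉₊ : ℝ) - ⌊((4 * N : ℕ) : ℝ) * a⌋₊ - 1 ≤
      (IW N a b).card + (((range (4 * N)).filter (fun j : ℕ => DD (4 * N) ((j : ℝ) / (4 * N : ℕ)) < Y)).card : ℝ) := by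
    have h5 : ⌈((4 * N : ℕ) : ℝ) * b⌉₊ ≤ ⌊((4 * N : ℕ) : ℝ) * a⌋₊ + 1 + ((IW N a b).card +
        ((range (4 * N)).filter (fun j : ℕ => DD (4 * N) ((j : ℝ) / (4 * N : ℕ)) < Y)).card) := by omega
    have h6 : (⌈((4 * N : ℕ) : ℝ) * b⌉₊ : ℝ) ≤ ⌊((4 * N : ℕ) : ℝ) * a⌋₊ + 1 + ((IW N a b).card +
        (((range (4 * N)).filter (fun j : ℕ => DD (4 * N) ((j : ℝ) / (4 * N : ℕ)) < Y)).card : ℝ)) := by exact_mod_cast h5
    linarith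
  have h5 : ((4 * N : ℕ) : ℝ) * b ≤ ⌈((4 * N : ℕ) : ℝ) * b⌉₊ := Nat.le_ceil _
  have h6 : (⌊((4 * N : ℕ) : ℝ) * a⌋₊ : ℝ) ≤ ((4 * N : ℕ) : ℝ) * a := Nat.floor_le (by positivity)
  have h7 : (1 : ℝ) ≤ (N : ℝ) ^ (1 / 2 : ℝ) := Real.one_le_rpow hN1 (by norm_num)
  push_cast at h4 h5 h6 h1 ⊢
  linarith

end Pool.Agent.Helper51.EA
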